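import Mathlib

namespace Pool.Agent.Lib.MP_b0a977_co

lemma arith1 (a b k l d e F : ℤ) (hb : 0 ≤ b) (hab : b ≤ a) (he : a + b ≤ e)
    (hk : 0 ≤ k) (hka : k ≤ a) (hl : 0 ≤ l) (h : e ^ 2 + 96 * e ≤ 8 * d)
    (hF1 : 4 * F ≤ e ^ 2) (hF2 : e ^ 2 ≤ 4 * F + 1) (he1 : 1 ≤ e) :
    2 * a * (a + 1) + 2 * b * (b + 1) + 2 * a * b * d + k * (a ^ 2 + 24 * a - 8 - 2 * d)
      + l * (b ^ 2 + 24 * b - 8 - 2 * d) ≤ 2 * e * (e + 1) + 2 * F * (d - 2) := by
  have hd : 12 ≤ d := by nlinarith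
  have hB : b ^ 2 + 24 * b - 8 - 2 * d ≤ 0 := by nlinarith
  have h1 : l * (b ^ 2 + 24 * b - 8 - 2 * d) ≤ 0 := mul_nonpos_of_nonneg_of_nonpos hl hB
  have h2 : (a + b) * (a + b + 1) ≤ e * (e + 1) := by nlinarith
  have hab4 : 4 * (a * b) ≤ e ^ 2 := by nlinarith [sq_nonneg (a - b)]
  have habF : a * b ≤ F := by
    have : 4 * (a * b) ≤ 4 * F + 1 := hab4.trans hF2
    omega
  rcases le_or_gt (a ^ 2 + 24 * a - 8 - 2 * d) 0 with hQ | hQ
  · have h3 : k * (a ^ 2 + 24 * a - 8 - 2 * d) ≤ 0 := mul_nonpos_of_nonneg_of_nonpos hk hQ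
    have h4 : (a * b) * (d - 2) ≤ F * (d - 2) := mul_le_mul_of_nonneg_right habF (by linarith)
    nlinarith
  · have h3 : k * (a ^ 2 + 24 * a - 8 - 2 * d) ≤ a * (a ^ 2 + 24 * a - 8 - 2 * d) :=
      mul_le_mul_of_nonneg_right hka hQ.le
    have ha0 : 0 ≤ a := hb.trans hab
    -- i = 2a - e
    obtain ⟨i, hi⟩ : ∃ i, i = 2 * a - e := ⟨_, rfl⟩
    have hie : i ≤ e := by linarith
    have h4Q : 4 * (a ^ 2 + 24 * a - 8 - 2 * d) ≤ 2 * e * (i - 24) + i ^ 2 + 48 * i - 32 := by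
      have : e = 2 * a - i := by linarith
      subst this; nlinarith
    have hi2 : 2 ≤ i := by
      by_contra hcon
      have : i ≤ 1 := by linarith [not_le.1 hcon, Int.lt_iff_add_one_le.1 (not_le.1 hcon)]
      have hia : -e ≤ i := by linarith
      have : 2 * e * (i - 24) + i ^ 2 + 48 * i - 32 ≤ 0 := by nlinarith
      linarith
    have hab' : a * b ≤ a * (e - a) := mul_le_mul_of_nonneg_left (by linarith) ha0
    have hH : i ^ 2 - 1 ≤ 4 * (F - a * b) := by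
      have : 4 * (a * (e - a)) = e ^ 2 - i ^ 2 := by rw [hi]; ring
      linarith
    have hH' : 3 * i ^ 2 ≤ 16 * (F - a * b) := by nlinarith
    have hae : a ≤ e := by linarith
    have hd2 : e ^ 2 + 80 * e ≤ 8 * (d - 2) := by linarith
    -- claim
    have key : a * (a ^ 2 + 24 * a - 8 - 2 * d) ≤ 2 * (F - a * b) * (d - 2) := by
      have hstep : a * (a ^ 2 + 24 * a - 8 - 2 * d) ≤ e * (a ^ 2 + 24 * a - 8 - 2 * d) :=
        mul_le_mul_of_nonneg_right hae hQ.le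
      set Q := a ^ 2 + 24 * a - 8 - 2 * d with hQdef
      set H := F - a * b with hHdef
      have hd0 : 0 ≤ d - 2 := by linarith
      rcases le_or_gt i 24 with hi24 | hi24
      · have h50 : 0 ≤ (e - i) * (24 - i) := mul_nonneg (by linarith) (by linarith)
        have h5 : 4 * Q ≤ 3 * i ^ 2 := by linarith
        -- 32 * 4 * e Q ≤ 96 e i² , 2 H (d-2) * 64 = (16H)(8(d-2)) ≥ 3 i² (80 e)
        have h6 : (3 * i ^ 2) * (80 * e) ≤ (16 * H) * (8 * (d - 2)) := by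
          apply mul_le_mul hH' (by linarith [sq_nonneg e]) (by positivity)
            (by linarith [sq_nonneg i])
        have h7 : e * (4 * Q) ≤ e * (3 * i ^ 2) := mul_le_mul_of_nonneg_left h5 (by linarith)
        have h8 : 0 ≤ e * i ^ 2 := mul_nonneg (by linarith) (sq_nonneg i)
        linarith
      · have h5 : 4 * Q ≤ 3 * e * i := by
          have h51 : 0 ≤ e * (e - i) := mul_nonneg (by linarith) (by linarith)
          have h52 : 0 ≤ i * (e - i) := mul_nonneg (by linarith) (by linarith)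
          linarith
        have h8 : 12 * i ≤ i ^ 2 - 1 := by
          have : 0 ≤ (i - 24) * i := mul_nonneg (by linarith) (by linarith)
          linarith
        have h6 : (i ^ 2 - 1) * e ^ 2 ≤ (4 * H) * (8 * (d - 2)) := by
          apply mul_le_mul hH (by linarith) (by positivity) (by linarith)
        have h7 : e * (4 * Q) ≤ e * (3 * e * i) := mul_le_mul_of_nonneg_left h5 (by linarith)
        have h9 : 12 * i * e ^ 2 ≤ (i ^ 2 - 1) * e ^ 2 :=
          mul_le_mul_of_nonneg_right h8 (by positivity)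
        have h10 : 0 ≤ i * e ^ 2 := mul_nonneg (by linarith) (sq_nonneg e)
        linarith
    linarith

lemma arith (a b k l d e F : ℤ) (ha : 0 ≤ a) (hb : 0 ≤ b) (he : a + b ≤ e)
    (hk : 0 ≤ k) (hka : k ≤ a) (hl : 0 ≤ l) (hlb : l ≤ b) (h : e ^ 2 + 96 * e ≤ 8 * d)
    (hF1 : 4 * F ≤ e ^ 2) (hF2 : e ^ 2 ≤ 4 * F + 1) :
    2 * a * (a + 1) + 2 * b * (b + 1) + 2 * a * b * d + k * (a ^ 2 + 24 * a - 8 - 2 * d)
      + l * (b ^ 2 + 24 * b - 8 - 2 * d) ≤ 2 * e * (e + 1) + 2 * F * (d - 2) := by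
  rcases eq_or_lt_of_le (show 0 ≤ e by linarith) with h0 | h0
  · have ha0 : a = 0 := by linarith
    have hb0 : b = 0 := by linarith
    have hk0 : k = 0 := by linarith
    have hl0 : l = 0 := by linarith
    have hF0 : F = 0 := by rw [← h0] at hF1 hF2; omega
    rw [ha0, hb0, hk0, hl0, hF0, ← h0]; norm_num
  · rcases le_total b a with hab | hab
    · exact arith1 a b k l d e F hb hab he hk hka hl h hF1 hF2 h0
    · have := arith1 b a l k d e F ha hab (by linarith) hl hlb hk h hF1 hF2 h0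
      linarith

lemma mid (e d m m' p p' δ : ℤ) (he : 1 ≤ e) (hd : 12 * e ≤ d) (hm0 : 0 ≤ m) (hm : m ≤ e)
    (hm' : m' ≤ e) (hp : d < 2 * p) (hp' : d ≤ 2 * p') (h : p + p' - d ≤ m + m')
    (hδ : p = δ + m) :
    2 * m * (m + 1) - 2 * δ * (d - δ - 2 * m) + 2 * e * d ≤ 0 := by
  have h1 : d - 2 * e ≤ 2 * δ := by linarith
  have h2 : d - 6 * e ≤ 2 * (d - δ - 2 * m) := by linarith
  have h3 : (d - 2 * e) * (d - 6 * e) ≤ (2 * δ) * (2 * (d - δ - 2 * m)) :=
    mul_le_mul h1 h2 (by linarith) (by linarith)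
  have h4 : 2 * m * (m + 1) ≤ 2 * e * (e + 1) := by nlinarith
  nlinarith

end Pool.Agent.Lib.MP_b0a977_co
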