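import Mathlib

set_option linter.unusedSectionVars false

namespace Pool.Agent.Lib.MP_b0a977_co

open Finset

section

variable {V W : Type*} {K : SimpleGraph W} {π : V → W}

lemma lift_walk (hπ : Function.Surjective π) {a b : W} (q : K.Walk a b) (hq : 1 ≤ q.length)
    (x y : V) (hx : π x = a) (hy : π y = b) :
    ∃ q' : (K.comap π).Walk x y, q'.length = q.length := by
  induction q generalizing x with
  | nil => simp at hq
  | @cons a c b h q ih =>
    subst hx
    rcases Nat.eq_zero_or_pos q.length with h0 | h0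
    · have hcb : c = b := SimpleGraph.Walk.eq_of_length_eq_zero h0
      subst hcb
      have hadj : (K.comap π).Adj x y := by rw [SimpleGraph.comap_adj, hy]; exact h
      refine ⟨SimpleGraph.Walk.cons hadj SimpleGraph.Walk.nil, ?_⟩
      simp [h0]
    · obtain ⟨z, rfl⟩ := hπ c
      obtain ⟨q', hq'⟩ := ih h0 z rfl hy
      have hadj : (K.comap π).Adj x z := by rw [SimpleGraph.comap_adj]; exact h
      exact ⟨SimpleGraph.Walk.cons hadj q', by simp [hq']⟩

lemma proj_walk {x y : V} (q : (K.comap π).Walk x y) :
    ∃ q' : K.Walk (π x) (π y), q'.length = q.length := by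
  induction q with
  | nil => exact ⟨SimpleGraph.Walk.nil, rfl⟩
  | cons h q ih =>
    obtain ⟨q', hq'⟩ := ih
    exact ⟨SimpleGraph.Walk.cons (by simpa using h) q', by simp [hq']⟩

lemma exists_nbr (hK : K.Connected) [Nontrivial W] (a : W) : ∃ b, K.Adj a b := by
  obtain ⟨b, hb⟩ := exists_ne a
  obtain ⟨q, hq⟩ := hK.exists_walk_length_eq_dist a b
  cases q with
  | nil => exact absurd rfl hb
  | cons h q => exact ⟨_, h⟩

lemma comap_connected (hK : K.Connected) [Nontrivial W] (hπ : Function.Surjective π) :
    (K.comap π).Connected := by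
  have hne : Nonempty V := by
    obtain ⟨w⟩ := hK.nonempty
    obtain ⟨x, _⟩ := hπ w
    exact ⟨x⟩
  rw [SimpleGraph.connected_iff]
  refine ⟨?_, hne⟩
  intro x y
  by_cases h : π x = π y
  · obtain ⟨b, hb⟩ := exists_nbr hK (π x)
    obtain ⟨z, rfl⟩ := hπ b
    have h1 : (K.comap π).Adj x z := by rw [SimpleGraph.comap_adj]; exact hb
    have h2 : (K.comap π).Adj z y := by rw [SimpleGraph.comap_adj, ← h]; exact hb.symm
    exact h1.reachable.trans h2.reachable
  · obtain ⟨q, hq⟩ := hK.exists_walk_length_eq_dist (π x) (π y)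
    have h1 : 1 ≤ q.length := by
      rcases Nat.eq_zero_or_pos q.length with h0 | h0
      · exact absurd (SimpleGraph.Walk.eq_of_length_eq_zero h0) h
      · exact h0
    obtain ⟨q', _⟩ := lift_walk hπ q h1 x y rfl rfl
    exact q'.reachable

lemma comap_dist_ne (hK : K.Connected) [Nontrivial W] (hπ : Function.Surjective π) {x y : V}
    (h : π x ≠ π y) : (K.comap π).dist x y = K.dist (π x) (π y) := by
  apply le_antisymm
  · obtain ⟨q, hq⟩ := hK.exists_walk_length_eq_dist (π x) (π y)
    have h1 : 1 ≤ q.length := by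
      rcases Nat.eq_zero_or_pos q.length with h0 | h0
      · exact absurd (SimpleGraph.Walk.eq_of_length_eq_zero h0) h
      · exact h0
    obtain ⟨q', hq'⟩ := lift_walk hπ q h1 x y rfl rfl
    rw [← hq, ← hq']
    exact SimpleGraph.dist_le q'
  · obtain ⟨q, hq⟩ := (comap_connected hK hπ).exists_walk_length_eq_dist x y
    obtain ⟨q', hq'⟩ := proj_walk q
    rw [← hq, ← hq']
    exact SimpleGraph.dist_le q'

lemma comap_dist_eq (hK : K.Connected) [Nontrivial W] (hπ : Function.Surjective π) {x y : V}
    (h : π x = π y) (hxy : x ≠ y) : (K.comap π).dist x y = 2 := by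
  have hc := comap_connected (K := K) hK hπ
  apply le_antisymm
  · obtain ⟨b, hb⟩ := exists_nbr hK (π x)
    obtain ⟨z, rfl⟩ := hπ b
    have h1 : (K.comap π).Adj x z := by rw [SimpleGraph.comap_adj]; exact hb
    have h2 : (K.comap π).Adj z y := by rw [SimpleGraph.comap_adj, ← h]; exact hb.symm
    exact SimpleGraph.dist_le (SimpleGraph.Walk.cons h1 (SimpleGraph.Walk.cons h2
      SimpleGraph.Walk.nil))
  · have h1 : (K.comap π).dist x y ≠ 0 := by
      intro h0
      exact hxy (hc.dist_eq_zero_iff.1 h0)
    have h2 : (K.comap π).dist x y ≠ 1 := by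
      intro h0
      have := SimpleGraph.dist_eq_one_iff_adj.1 h0
      rw [SimpleGraph.comap_adj, h] at this
      exact K.loopless.irrefl _ this
    omega

end

/-- Blow-up of a connected graph: every vertex `w` is replaced by an independent set of size
`mult w`. -/
theorem blowup {W : Type} [Fintype W] [DecidableEq W] [Nontrivial W] (K : SimpleGraph W)
    (hK : K.Connected) (mult : W → ℕ) (hm : ∀ w, 1 ≤ mult w) (n : ℕ) (hn : n = ∑ w, mult w)
    (d : ℕ) (hd2 : 2 ≤ d ∨ ∀ w, mult w = 1) (hd : ∀ w w', K.dist w w' ≤ d)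
    (hd' : ∃ w w', K.dist w w' = d ∧ w ≠ w') :
    ∃ G : SimpleGraph (Fin n), G.Connected ∧ G.diam = d ∧
      ∑ x, ∑ y, (G.dist x y : ℤ) = ∑ w, ∑ w', (mult w : ℤ) * mult w' * K.dist w w'
        + 2 * ∑ w, (mult w : ℤ) * (mult w - 1) := by
  classical
  have hcard : Fintype.card (Σ w : W, Fin (mult w)) = n := by
    rw [Fintype.card_sigma, hn]; simp
  let E : Fin n ≃ (Σ w : W, Fin (mult w)) :=
    (finCongr hcard.symm).trans (Fintype.equivFin _).symm
  let π : Fin n → W := fun x => (E x).1
  have hπ : Function.Surjective π := by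
    intro w
    refine ⟨E.symm ⟨w, ⟨0, hm w⟩⟩, ?_⟩
    simp [π]
  have hsum : ∀ h : W → ℤ, ∑ x, h (π x) = ∑ w, (mult w : ℤ) * h w := by
    intro h
    rw [Equiv.sum_comp E (fun v => h v.1), Fintype.sum_sigma]
    apply sum_congr rfl
    intro w _
    simp
  have hc := comap_connected (K := K) hK hπ
  refine ⟨K.comap π, hc, ?_, ?_⟩
  · have : Nonempty (Fin n) := hc.nonempty
    have htop : (K.comap π).ediam ≠ ⊤ := SimpleGraph.connected_iff_ediam_ne_top.1 hc
    apply le_antisymm
    · obtain ⟨x, y, hxy⟩ := SimpleGraph.exists_dist_eq_diam (G := K.comap π)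
      rw [← hxy]
      by_cases h : π x = π y
      · by_cases h' : x = y
        · rw [h', SimpleGraph.dist_self]; exact Nat.zero_le _
        · rw [comap_dist_eq hK hπ h h']
          rcases hd2 with hd2 | hd2
          · exact hd2
          · exfalso
            apply h'
            apply E.injective
            have h1 : (E x).1 = (E y).1 := h
            have h2 : mult (E x).1 = 1 := hd2 _
            rcases hx : E x with ⟨w, i⟩
            rcases hy : E y with ⟨w', j⟩
            rw [hx, hy] at h1
            rw [hx] at h2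
            simp only at h1 h2
            subst h1
            have : i = j := by
              apply Fin.ext
              have := i.2; have := j.2; omega
            rw [this]
      · rw [comap_dist_ne hK hπ h]; exact hd _ _
    · obtain ⟨w, w', h, hne⟩ := hd'
      obtain ⟨x, rfl⟩ := hπ w
      obtain ⟨y, rfl⟩ := hπ w'
      rw [← h, ← comap_dist_ne hK hπ hne]
      exact SimpleGraph.dist_le_diam htop
  · have h1 : ∀ x y, ((K.comap π).dist x y : ℤ) = K.dist (π x) (π y)
        + (2 * (if π x = π y then 1 else 0) - 2 * (if x = y then 1 else 0)) := by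
      intro x y
      by_cases h : π x = π y
      · by_cases h' : x = y
        · subst h'; simp
        · rw [comap_dist_eq hK hπ h h', h]; simp [h']
      · have h' : x ≠ y := fun h' => h (by rw [h'])
        rw [comap_dist_ne hK hπ h]; simp [h, h']
    simp_rw [h1, sum_add_distrib, sum_sub_distrib, ← mul_sum]
    congr 1
    · have h3 : ∀ x, ∑ y, (K.dist (π x) (π y) : ℤ) = ∑ w', (mult w' : ℤ) * K.dist (π x) w' :=
        fun x => hsum (fun w => (K.dist (π x) w : ℤ))
      simp_rw [h3]
      rw [hsum (fun w => ∑ w', (mult w' : ℤ) * K.dist w w')]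
      apply sum_congr rfl
      intro w _
      rw [mul_sum]
      apply sum_congr rfl
      intros; ring
    · have h3 : ∀ x, ∑ y, (if π x = π y then (1 : ℤ) else 0)
          = ∑ w', (mult w' : ℤ) * (if π x = w' then (1 : ℤ) else 0) :=
        fun x => hsum (fun w => if π x = w then (1 : ℤ) else 0)
      simp_rw [h3]
      rw [hsum (fun w' => ∑ w, (mult w : ℤ) * if w' = w then (1 : ℤ) else 0)]
      simp only [mul_ite, mul_one, mul_zero, sum_ite_eq, mem_univ, if_true]
      have h2 := hsum (fun _ => 1)
      simp only [mul_one] at h2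
      rw [h2, ← mul_sub, ← sum_sub_distrib]
      congr 1
      apply sum_congr rfl
      intros; ring

end Pool.Agent.Lib.MP_b0a977_co
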