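import Pool.Agent.Lib.MP_b0a977_co.Geo

set_option linter.unusedSectionVars false

namespace Pool.Agent.Lib.MP_b0a977_co

open Finset

lemma neq_pairs {α β : Type*} [DecidableEq α] [DecidableEq β] (S : Finset α) (f : α → β)
    (t : ℕ) (ht : #(S.image f) ≤ t + 1) :
    2 * #((S ×ˢ S).filter fun q => f q.1 ≠ f q.2) ≤ #S ^ 2 * t := by
  classical
  set U := S.image f with hU
  set c : β → ℕ := fun u => #(S.filter fun x => f x = u) with hc
  have h1 : ∑ u ∈ U, c u = #S := by
    rw [hc]
    exact (card_eq_sum_card_image f S).symm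
  have h2 : #((S ×ˢ S).filter fun q => f q.1 = f q.2) = ∑ u ∈ U, c u ^ 2 := by
    rw [card_eq_sum_card_fiberwise (f := fun q : α × α => f q.1) (t := U)]
    · apply sum_congr rfl
      intro u hu
      rw [hc]
      simp only
      rw [sq, ← card_product]
      congr 1
      ext ⟨x, y⟩
      simp only [mem_filter, mem_product]
      constructor
      · rintro ⟨⟨⟨a, b⟩, e⟩, h⟩
        exact ⟨⟨a, h⟩, ⟨b, by rw [← e]; exact h⟩⟩
      · rintro ⟨⟨a, h⟩, ⟨b, h'⟩⟩
        exact ⟨⟨⟨a, b⟩, by rw [h, h']⟩, h⟩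
    · intro q hq
      simp only [coe_filter, mem_product, Set.mem_ofPred_eq] at hq
      exact mem_coe.2 (mem_image_of_mem f hq.1.1)
  have h3 : #((S ×ˢ S).filter fun q => f q.1 = f q.2)
      + #((S ×ˢ S).filter fun q => f q.1 ≠ f q.2) = #S ^ 2 := by
    rw [card_filter_add_card_filter_not, card_product, sq]
  have h4 : (∑ u ∈ U, c u) ^ 2 ≤ #U * ∑ u ∈ U, c u ^ 2 := sq_sum_le_card_mul_sum_sq
  rw [h1, ← h2] at h4
  set E := #((S ×ˢ S).filter fun q => f q.1 = f q.2)
  set N := #((S ×ˢ S).filter fun q => f q.1 ≠ f q.2)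
  have h5 : #S ^ 2 ≤ (t + 1) * E := h4.trans (Nat.mul_le_mul_right _ ht)
  -- E + N = S^2, S^2 ≤ (t+1) E
  rcases Nat.eq_zero_or_pos t with h0 | h0
  · subst h0; nlinarith
  · -- 2N ≤ S^2 t : (t+1) N = (t+1)S^2 - (t+1)E ≤ t S^2
    have h6 : (t + 1) * N ≤ t * #S ^ 2 := by nlinarith
    nlinarith

namespace Geo

variable {V : Type*} [Fintype V] [DecidableEq V]
variable {G : SimpleGraph V} {d : ℕ} (g : Geo G d)

/-- the vertex above `x` at level `j` -/
noncomputable def u (j : ℕ) (x : V) : V := g.nx^[j - g.δ x] x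

lemma u_succ {j : ℕ} {x : V} (h1 : g.δ x ≤ j) : g.u (j + 1) x = g.nx (g.u j x) := by
  unfold u
  rw [show j + 1 - g.δ x = (j - g.δ x) + 1 by omega, Function.iterate_succ_apply']

lemma u_d (x : V) : g.u d x = g.v d := by
  unfold u
  have := g.δ_add_s x
  rw [show d - g.δ x = g.s x by omega, iter_s]

lemma dist_u {j : ℕ} {x : V} (h1 : g.δ x ≤ j) (h2 : j ≤ d) : G.dist x (g.u j x) ≤ j - g.δ x := by
  have := g.δ_add_s x
  exact g.dist_iter x _ (by omega)

lemma dist_le_pair (x y : V) :
    G.dist x y ≤ g.δ x + g.δ y + 2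
      + 2 * #((Ioc 0 d).filter fun j => g.δ x < j ∧ g.δ y < j ∧ g.u j x ≠ g.u j y) := by
  set J := max (g.δ x) (g.δ y) with hJ
  have hJd : J ≤ d := by
    have := g.δ_add_s x
    have := g.δ_add_s y
    omega
  have hex : ∃ j, J ≤ j ∧ j ≤ d ∧ g.u j x = g.u j y := ⟨d, hJd, le_rfl, by rw [u_d, u_d]⟩
  classical
  set j := Nat.find hex with hj
  obtain ⟨hj1, hj2, hj3⟩ := Nat.find_spec hex
  have hmin : ∀ i, J ≤ i → i < j → g.u i x ≠ g.u i y := by
    intro i h1 h2 h3
    exact Nat.find_min hex h2 ⟨h1, by omega, h3⟩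
  have hcard : j - 1 - J ≤ #((Ioc 0 d).filter fun j => g.δ x < j ∧ g.δ y < j ∧ g.u j x ≠ g.u j y) := by
    have : #(Ioo J j) = j - 1 - J := by rw [Nat.card_Ioo]; omega
    rw [← this]
    apply card_le_card
    intro i hi
    rw [mem_Ioo] at hi
    rw [mem_filter, mem_Ioc]
    exact ⟨⟨by omega, by omega⟩, by omega, by omega, hmin i hi.1.le hi.2⟩
  have h1 := g.dist_u (x := x) (j := j) (by omega) hj2
  have h2 := g.dist_u (x := y) (j := j) (by omega) hj2
  have h3 := g.conn.dist_triangle (u := x) (v := g.u j x) (w := y)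
  have h4 : G.dist (g.u j x) y = G.dist y (g.u j y) := by
    rw [SimpleGraph.dist_comm]; rw [hj] at *; rw [hj3]
  omega

/-- Sum over the path. -/
noncomputable def D (x : V) : ℤ := ∑ l ∈ range (d + 1), (G.dist x (g.v l) : ℤ)

lemma sum_abs (p d : ℕ) (h : p ≤ d) :
    2 * ∑ l ∈ range (d + 1), |(p : ℤ) - l| = p * (p + 1) + (d - p) * (d - p + 1) := by
  induction d, h using Nat.le_induction with
  | base =>
    have h1 : ∀ l ∈ range (p + 1), |(p : ℤ) - l| = (p : ℤ) - l := by
      intro l hl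
      rw [mem_range] at hl
      apply abs_of_nonneg
      have : (l : ℤ) ≤ p := by exact_mod_cast Nat.lt_succ_iff.1 hl
      linarith
    rw [sum_congr rfl h1]
    have h0 : ∀ m : ℕ, 2 * ∑ l ∈ range (m + 1), ((m : ℤ) - l) = m * (m + 1) := by
      intro m
      induction m with
      | zero => simp
      | succ m ih =>
        rw [sum_range_succ]
        have : ∑ l ∈ range (m + 1), (((m + 1 : ℕ) : ℤ) - l)
            = ∑ l ∈ range (m + 1), ((m : ℤ) - l) + (m + 1) := by
          rw [show ((m : ℤ) + 1) = ∑ l ∈ range (m + 1), (1 : ℤ) by simp, ← sum_add_distrib]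
          apply sum_congr rfl
          intros; push_cast; ring
        rw [this]; push_cast; linarith
    rw [h0]; ring
  | succ d hd ih =>
    rw [sum_range_succ, mul_add, ih]
    rw [abs_of_nonpos (by push_cast; have : (p : ℤ) ≤ d := by exact_mod_cast hd
                          linarith)]
    push_cast; ring

lemma D_le (x : V) :
    2 * g.D x ≤ d * (d + 1) + 2 * g.m x * (g.m x + 1) - 2 * g.δ x * (d - g.δ x - 2 * g.m x) := by
  have h1 : ∀ l ∈ range (d + 1), (G.dist x (g.v l) : ℤ) ≤ g.m x + |(g.p x : ℤ) - l| := by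
    intro l hl
    rw [mem_range] at hl
    have h2 := g.conn.dist_triangle (u := x) (v := g.v (g.p x)) (w := g.v l)
    have h3 := g.dist_iter x (g.m x) (g.m_le_s x)
    rw [g.iter_m] at h3
    have hp := g.p_le x
    have h4 : (G.dist (g.v (g.p x)) (g.v l) : ℤ) = |(g.p x : ℤ) - l| := by
      rcases le_total (g.p x) l with h | h
      · rw [g.hv _ _ h (by omega), abs_of_nonpos (by have : (g.p x : ℤ) ≤ l := by exact_mod_cast h
                                                     linarith)]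
        push_cast [h]; ring
      · rw [SimpleGraph.dist_comm, g.hv _ _ h (by omega),
          abs_of_nonneg (by have : (l : ℤ) ≤ g.p x := by exact_mod_cast h
                            linarith)]
        push_cast [h]; ring
    have h5 : (G.dist x (g.v l) : ℤ) ≤ G.dist x (g.v (g.p x)) + G.dist (g.v (g.p x)) (g.v l) := by
      exact_mod_cast h2
    have h6 : (G.dist x (g.v (g.p x)) : ℤ) ≤ g.m x := by exact_mod_cast h3
    linarith
  have h2 := sum_le_sum h1
  rw [sum_add_distrib] at h2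
  have h3 := sum_abs (g.p x) d (g.p_le x)
  have h4 : (g.p x : ℤ) = g.δ x + g.m x := by unfold p; push_cast; ring
  simp only [sum_const, card_range, nsmul_eq_mul] at h2
  unfold D
  rw [h4] at h3 h2
  push_cast at h2
  nlinarith

end Geo

end Pool.Agent.Lib.MP_b0a977_co
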