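import Pool.Agent.Lib.MP_b0a977_co.Blowup
import Pool.Agent.Lib.MP_b0a977_co.Side

set_option linter.unusedSectionVars false

namespace Pool.Agent.Lib.MP_b0a977_co

open Finset

lemma walk_of_gradient {W : Type} (K : SimpleGraph W) (f : W → W → ℕ)
    (hf : ∀ w w', w ≠ w' → ∃ z, K.Adj w z ∧ f z w' < f w w') :
    ∀ (k : ℕ) (w w' : W), f w w' ≤ k → ∃ q : K.Walk w w', q.length ≤ f w w' := by
  intro k
  induction k with
  | zero =>
    intro w w' h
    by_cases hw : w = w'
    · subst hw; exact ⟨SimpleGraph.Walk.nil, by simp⟩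
    · obtain ⟨z, _, h2⟩ := hf w w' hw; omega
  | succ k ih =>
    intro w w' h
    by_cases hw : w = w'
    · subst hw; exact ⟨SimpleGraph.Walk.nil, by simp⟩
    · obtain ⟨z, h1, h2⟩ := hf w w' hw
      obtain ⟨q, hq⟩ := ih z w' (by omega)
      exact ⟨SimpleGraph.Walk.cons h1 q, by simp; omega⟩

/-- A graph whose distance is `f`: it decreases along some edge and changes by at most one
along every edge. -/
lemma dist_eq_of_gradient {W : Type} [Nonempty W] (K : SimpleGraph W) (f : W → W → ℕ)
    (h0 : ∀ w, f w w = 0)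
    (hf : ∀ w w', w ≠ w' → ∃ z, K.Adj w z ∧ f z w' < f w w')
    (hl : ∀ w z w', K.Adj w z → f w w' ≤ f z w' + 1) :
    K.Connected ∧ ∀ w w', K.dist w w' = f w w' := by
  have hwalk := walk_of_gradient K f hf
  have hc : K.Connected := by
    rw [SimpleGraph.connected_iff]
    refine ⟨?_, inferInstance⟩
    intro w w'
    obtain ⟨q, _⟩ := hwalk _ w w' le_rfl
    exact q.reachable
  refine ⟨hc, ?_⟩
  intro w w'
  apply le_antisymm
  · obtain ⟨q, hq⟩ := hwalk _ w w' le_rfl
    exact (SimpleGraph.dist_le q).trans hq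
  · obtain ⟨q, hq⟩ := hc.exists_walk_length_eq_dist w w'
    rw [← hq]
    clear hq
    induction q with
    | nil => rw [h0]; exact Nat.zero_le _
    | @cons u v w h q ih =>
      have := hl u v w h
      rw [SimpleGraph.Walk.length_cons]; omega

/-- The path with vertices `0, ..., d`. -/
def pathK (d : ℕ) : SimpleGraph (Fin (d + 1)) where
  Adj i j := i.val + 1 = j.val ∨ j.val + 1 = i.val
  symm := ⟨fun i j h => h.symm⟩
  loopless := ⟨fun i h => by omega⟩

/-- distance on the path -/
def fP (d : ℕ) (i j : Fin (d + 1)) : ℕ := (i.val - j.val) + (j.val - i.val)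

lemma pathK_dist (d : ℕ) : (pathK d).Connected ∧ ∀ i j, (pathK d).dist i j = fP d i j := by
  apply dist_eq_of_gradient
  · intro i; simp [fP]
  · intro i j hij
    have hne : i.val ≠ j.val := fun h => hij (Fin.ext h)
    rcases Nat.lt_or_ge i.val j.val with h | h
    · refine ⟨⟨i.val + 1, by omega⟩, Or.inl rfl, ?_⟩
      simp only [fP]; omega
    · refine ⟨⟨i.val - 1, by omega⟩, Or.inr ?_, ?_⟩
      · simp only; omega
      · simp only [fP]; omega
  · intro i z j h
    have h : i.val + 1 = z.val ∨ z.val + 1 = i.val := h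
    simp only [fP]; omega

/-- The path `0, ..., d` with a pendant path of length two at vertex `2`. -/
def spurK (d : ℕ) : SimpleGraph (Fin (d + 1) ⊕ Fin 2) where
  Adj w z := match w, z with
    | Sum.inl i, Sum.inl j => i.val + 1 = j.val ∨ j.val + 1 = i.val
    | Sum.inl i, Sum.inr k => i.val = 2 ∧ k.val = 0
    | Sum.inr k, Sum.inl i => i.val = 2 ∧ k.val = 0
    | Sum.inr k, Sum.inr l => k ≠ l
  symm := ⟨by
    rintro (i | k) (j | l) h
    · exact h.symm
    · exact h
    · exact h
    · exact Ne.symm h⟩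
  loopless := ⟨by
    rintro (i | k) h
    · have h : i.val + 1 = i.val ∨ i.val + 1 = i.val := h
      omega
    · exact h rfl⟩

/-- distance in `spurK` -/
def fS (d : ℕ) (w z : Fin (d + 1) ⊕ Fin 2) : ℕ := match w, z with
    | Sum.inl i, Sum.inl j => (i.val - j.val) + (j.val - i.val)
    | Sum.inl i, Sum.inr k => (i.val - 2) + (2 - i.val) + 1 + k.val
    | Sum.inr k, Sum.inl i => (i.val - 2) + (2 - i.val) + 1 + k.val
    | Sum.inr k, Sum.inr l => (k.val - l.val) + (l.val - k.val)

lemma spurK_dist (d : ℕ) (hd : 2 ≤ d) :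
    (spurK d).Connected ∧ ∀ i j, (spurK d).dist i j = fS d i j := by
  apply dist_eq_of_gradient
  · rintro (i | k) <;> simp [fS]
  · rintro (i | k) (j | l) hij
    · have hne : i.val ≠ j.val := fun h => hij (by rw [Fin.ext h])
      rcases Nat.lt_or_ge i.val j.val with h | h
      · refine ⟨Sum.inl ⟨i.val + 1, by omega⟩, Or.inl rfl, ?_⟩
        simp only [fS]; omega
      · refine ⟨Sum.inl ⟨i.val - 1, by omega⟩, Or.inr ?_, ?_⟩
        · simp only; omega
        · simp only [fS]; omega
    · rcases Nat.lt_trichotomy i.val 2 with h | h | h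
      · refine ⟨Sum.inl ⟨i.val + 1, by omega⟩, Or.inl rfl, ?_⟩
        simp only [fS]; omega
      · refine ⟨Sum.inr 0, ⟨h, rfl⟩, ?_⟩
        simp only [fS]
        have := l.2
        simp only [Fin.val_zero]
        omega
      · refine ⟨Sum.inl ⟨i.val - 1, by omega⟩, Or.inr ?_, ?_⟩
        · simp only; omega
        · simp only [fS]; omega
    · rcases Nat.eq_zero_or_pos k.val with h | h
      · refine ⟨Sum.inl ⟨2, by omega⟩, ⟨rfl, h⟩, ?_⟩
        simp only [fS]; omega
      · refine ⟨Sum.inr 0, ?_, ?_⟩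
        · change k ≠ 0
          intro h'; rw [h'] at h; simp at h
        · simp only [fS, Fin.val_zero]; omega
    · have hne : k ≠ l := fun h => hij (by rw [h])
      have hne' : k.val ≠ l.val := fun h => hne (Fin.ext h)
      refine ⟨Sum.inr l, hne, ?_⟩
      simp only [fS]; omega
  · rintro (i | k) (z | m) (j | l) h
    · have h : i.val + 1 = z.val ∨ z.val + 1 = i.val := h
      simp only [fS]; omega
    · have h : i.val + 1 = z.val ∨ z.val + 1 = i.val := h
      simp only [fS]; omega
    · have h : i.val = 2 ∧ m.val = 0 := h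
      simp only [fS]; omega
    · have h : i.val = 2 ∧ m.val = 0 := h
      simp only [fS]; omega
    · have h : z.val = 2 ∧ k.val = 0 := h
      simp only [fS]; omega
    · have h : z.val = 2 ∧ k.val = 0 := h
      simp only [fS]; omega
    · simp only [fS]; have := k.2; have := m.2; omega
    · simp only [fS]; have := k.2; have := m.2; have := l.2; omega

lemma sum_fin_abs (d p : ℕ) (h : p ≤ d) :
    2 * ∑ j : Fin (d + 1), |(p : ℤ) - j.val| = p * (p + 1) + (d - p) * (d - p + 1) := by
  rw [← Geo.sum_abs p d h, ← Fin.sum_univ_eq_sum_range (fun l => |(p : ℤ) - (l : ℤ)|) (d + 1)]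

lemma sum_fin_sq (d : ℕ) :
    3 * ∑ i : Fin (d + 1), ((i.val : ℤ) * (i.val + 1) + (d - i.val) * (d - i.val + 1))
      = 2 * (d * (d + 1) * (d + 2)) := by
  rw [Fin.sum_univ_eq_sum_range (fun i => ((i : ℤ) * (i + 1) + (d - i) * (d - i + 1))) (d + 1)]
  have h3 : ∀ n : ℕ, 3 * ∑ i ∈ range (n + 1), ((i : ℤ) * (i + 1)) = n * (n + 1) * (n + 2) := by
    intro n
    induction n with
    | zero => simp
    | succ n ih => rw [sum_range_succ, mul_add, ih]; push_cast; ring
  have h4 : ∑ i ∈ range (d + 1), (((d : ℤ) - i) * (d - i + 1))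
      = ∑ i ∈ range (d + 1), ((i : ℤ) * (i + 1)) := by
    rw [← sum_range_reflect]
    apply sum_congr rfl
    intro i hi
    rw [mem_range] at hi
    have : ((d + 1 - 1 - i : ℕ) : ℤ) = d - i := by
      rw [Nat.add_sub_cancel]; push_cast [show i ≤ d by omega]; ring
    rw [this]; ring
  rw [sum_add_distrib, h4]
  have h5 := h3 d
  linarith

lemma fP_cast (d : ℕ) (i j : Fin (d + 1)) : (fP d i j : ℤ) = |(i.val : ℤ) - j.val| := by
  unfold fP
  rcases le_total i.val j.val with h | h
  · rw [Nat.sub_eq_zero_of_le h, abs_of_nonpos (by have : (i.val : ℤ) ≤ j.val := by exact_mod_cast h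
                                                   linarith)]
    push_cast [h]; ring
  · rw [Nat.sub_eq_zero_of_le h, abs_of_nonneg (by have : (j.val : ℤ) ≤ i.val := by exact_mod_cast h
                                                   linarith)]
    push_cast [h]; ring

/-- The double broom. -/
theorem broom (d a b : ℕ) (hd : 1 ≤ d) (hd2 : 2 ≤ d ∨ (a = 0 ∧ b = 0)) :
    ∃ G : SimpleGraph (Fin (d + 1 + (a + b))), G.Connected ∧ G.diam = d ∧
      3 * ∑ x, ∑ y, (G.dist x y : ℤ) = d * (d + 1) * (d + 2) + 3 * ((a + b) * (d * (d + 1))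
        + 2 * a * (a + 1) + 2 * b * (b + 1) + 2 * a * b * d) := by
  obtain ⟨m, rfl⟩ : ∃ m, d = m + 1 := ⟨d - 1, by omega⟩
  set d := m + 1 with hdm
  obtain ⟨hK, hdist⟩ := pathK_dist d
  let mult : Fin (d + 1) → ℕ := fun i => 1 + (if i = 0 then a else 0)
    + (if i = Fin.last d then b else 0)
  have hS : ∀ h : Fin (d + 1) → ℤ, ∑ i, (mult i : ℤ) * h i
      = ∑ i, h i + a * h 0 + b * h (Fin.last d) := by
    intro h
    simp only [mult]
    push_cast
    simp only [add_mul, one_mul, ite_mul, zero_mul, sum_add_distrib, sum_ite_eq', mem_univ,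
      if_true]
  have hne : (0 : Fin (d + 1)) ≠ Fin.last d := by
    intro h
    have := congrArg Fin.val h
    simp at this
  have hn : d + 1 + (a + b) = ∑ w, mult w := by
    have h1 := hS (fun _ => 1)
    simp only [mul_one, sum_const, card_univ, Fintype.card_fin, nsmul_eq_mul] at h1
    have h2 : ((d + 1 + (a + b) : ℕ) : ℤ) = ((∑ w, mult w : ℕ) : ℤ) := by
      push_cast at h1 ⊢; linarith
    exact_mod_cast h2
  obtain ⟨G, h1, h2, h3⟩ := blowup (pathK d) hK mult (fun w => by simp only [mult]; omega)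
    (d + 1 + (a + b)) hn d
    (by
      rcases hd2 with h | ⟨h, h'⟩
      · exact Or.inl h
      · right; intro w; simp only [mult, h, h']; simp)
    (by
      intro w w'; rw [hdist]; unfold fP
      have := w.2; have := w'.2; omega)
    ⟨0, Fin.last d, by rw [hdist]; simp [fP], hne⟩
  refine ⟨G, h1, h2, ?_⟩
  rw [h3]
  have e1 : ∀ w : Fin (d + 1), ∑ w', (mult w : ℤ) * mult w' * (pathK d).dist w w'
      = mult w * (∑ w' : Fin (d + 1), |(w.val : ℤ) - w'.val| + a * w.val + b * (d - w.val)) := by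
    intro w
    have := hS (fun w' => ((pathK d).dist w w' : ℤ))
    have e2 : ∑ w', (mult w : ℤ) * mult w' * (pathK d).dist w w'
        = mult w * ∑ w', (mult w' : ℤ) * (pathK d).dist w w' := by
      rw [mul_sum]; apply sum_congr rfl; intros; ring
    rw [e2, this]
    simp only [hdist, fP_cast]
    simp only [Fin.val_zero, Nat.cast_zero, sub_zero, Fin.val_last]
    rw [abs_of_nonneg (by positivity : (0 : ℤ) ≤ (w.val : ℤ)), abs_of_nonpos (by
      have : w.val ≤ d := by omega
      have : (w.val : ℤ) ≤ d := by exact_mod_cast this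
      linarith)]
    ring
  simp_rw [e1]
  rw [hS (fun w => (∑ w' : Fin (d + 1), |(w.val : ℤ) - w'.val| + a * w.val + b * (d - w.val)))]
  have e3 : ∀ w : Fin (d + 1), 2 * (∑ w' : Fin (d + 1), |(w.val : ℤ) - w'.val|)
      = (w.val : ℤ) * (w.val + 1) + (d - w.val) * (d - w.val + 1) :=
    fun w => sum_fin_abs d w.val (by omega)
  have e4 : 2 * ∑ w : Fin (d + 1), (w.val : ℤ) = d * (d + 1) := by
    have := sum_fin_abs d 0 (Nat.zero_le _)
    simp only [Nat.cast_zero, zero_sub, abs_neg, Nat.abs_cast] at this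
    rw [this]; ring
  have e5 : 6 * ∑ w : Fin (d + 1), (∑ w' : Fin (d + 1), |(w.val : ℤ) - w'.val| + a * w.val
      + b * (d - w.val)) = 2 * (d * (d + 1) * (d + 2)) + 3 * (a + b) * (d * (d + 1)) := by
    have e6 : 2 * ∑ w : Fin (d + 1), ∑ w' : Fin (d + 1), |(w.val : ℤ) - w'.val|
        = ∑ i : Fin (d + 1), ((i.val : ℤ) * (i.val + 1) + (d - i.val) * (d - i.val + 1)) := by
      rw [mul_sum]; exact sum_congr rfl fun w _ => e3 w
    have e7 := sum_fin_sq d
    rw [← e6] at e7
    simp only [sum_add_distrib, ← mul_sum, sum_sub_distrib, sum_const, card_univ,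
      Fintype.card_fin, nsmul_eq_mul]
    push_cast
    linear_combination e7 + 3 * (a : ℤ) * e4 - 3 * (b : ℤ) * e4
  have e8 : 2 * ∑ w' : Fin (d + 1), |((0 : Fin (d + 1)).val : ℤ) - w'.val| = d * (d + 1) := by
    rw [e3]; simp
  have e9 : 2 * ∑ w' : Fin (d + 1), |((Fin.last d).val : ℤ) - w'.val| = d * (d + 1) := by
    rw [e3]; simp
  have e10 : ∑ w, (mult w : ℤ) * (mult w - 1) = a + b + a * a + b * b := by
    have := hS (fun w => (mult w : ℤ) - 1)
    rw [this]
    simp only [mult]
    push_cast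
    simp only [hne, hne.symm, if_false]
    have : ∑ x : Fin (d + 1), ((1 : ℤ) + (if x = 0 then (a : ℤ) else 0)
        + (if x = Fin.last d then (b : ℤ) else 0) - 1) = a + b := by
      simp only [sum_sub_distrib, sum_add_distrib, sum_ite_eq', mem_univ, if_true]
      ring
    rw [this]; ring
  rw [e10]
  simp only [Fin.val_zero, Fin.val_last, Nat.cast_zero] at e8 e9 ⊢
  apply mul_left_cancel₀ (two_ne_zero (α := ℤ))
  linear_combination e5 + 3 * (a : ℤ) * e8 + 3 * (b : ℤ) * e9

end Pool.Agent.Lib.MP_b0a977_co
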