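import Pool.Agent.Lib.MP_b0a977_co.Upper

namespace Pool.Agent.Lib.MP_b0a977_co

open Finset

variable {V : Type*} [Fintype V] [DecidableEq V] {G : SimpleGraph V} {d : ℕ}

theorem upper_diam (hc : G.Connected) (hdiam : G.diam = d) (e : ℕ)
    (hcard : Fintype.card V = d + 1 + e) (he : e ^ 2 + 96 * e ≤ 8 * d) :
    3 * ∑ x, ∑ y, (G.dist x y : ℤ) ≤ d * (d + 1) * (d + 2) + 3 * (e * (d * (d + 1))
      + 2 * e * (e + 1) + 2 * ((e ^ 2 / 4 : ℕ) : ℤ) * (d - 2)) := by
  have : Nonempty V := hc.nonempty
  have htop : G.ediam ≠ ⊤ := SimpleGraph.connected_iff_ediam_ne_top.1 hc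
  have hd : ∀ x y, G.dist x y ≤ d := fun x y => hdiam ▸ SimpleGraph.dist_le_diam htop
  obtain ⟨x0, y0, h0⟩ := SimpleGraph.exists_dist_eq_diam (G := G)
  rw [hdiam] at h0
  obtain ⟨q, hq⟩ := hc.exists_walk_length_eq_dist x0 y0
  rw [h0] at hq
  have hle : ∀ i k, i + k ≤ d → G.dist (q.getVert i) (q.getVert (i + k)) ≤ k := by
    intro i k
    induction k with
    | zero => intro _; simp
    | succ k ih =>
      intro hk
      have h1 := ih (by omega)
      have h2 : G.Adj (q.getVert (i + k)) (q.getVert (i + k + 1)) :=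
        q.adj_getVert_succ (by omega)
      have h3 : G.dist (q.getVert (i + k)) (q.getVert (i + k + 1)) = 1 :=
        SimpleGraph.dist_eq_one_iff_adj.2 h2
      have h4 := hc.dist_triangle (u := q.getVert i) (v := q.getVert (i + k))
        (w := q.getVert (i + k + 1))
      rw [← Nat.add_assoc]
      omega
  have h0' : q.getVert 0 = x0 := q.getVert_zero
  have hl : q.getVert d = y0 := by rw [← hq]; exact q.getVert_length
  have hv : ∀ i j, i ≤ j → j ≤ d → G.dist (q.getVert i) (q.getVert j) = j - i := by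
    intro i j hij hj
    have h1 := hle i (j - i) (by omega)
    rw [show i + (j - i) = j by omega] at h1
    have h2 := hle 0 i (by omega)
    rw [Nat.zero_add, h0'] at h2
    have h3 := hle j (d - j) (by omega)
    rw [show j + (d - j) = d by omega, hl] at h3
    have h4 := hc.dist_triangle (u := x0) (v := q.getVert i) (w := y0)
    have h5 := hc.dist_triangle (u := q.getVert i) (v := q.getVert j) (w := y0)
    omega
  obtain ⟨g, hg⟩ := exists_geo hc hd q.getVert hv
  obtain ⟨g', hg'⟩ := exists_geo hc hd (fun i => q.getVert (d - i)) (by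
    intro i j hij hj
    rw [SimpleGraph.dist_comm, hv _ _ (by omega) (by omega)]
    omega)
  refine g.upper g' ?_ e hcard he
  intro i _
  rw [hg, hg']

end Pool.Agent.Lib.MP_b0a977_co
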