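import Mathlib

/-!
# One side of a diametral path

`v 0, ..., v d` is a geodesic in a connected graph of diameter at most `d`.  All vertices are
ranked by `δ x = d - dist x (v d)`.
-/

set_option linter.unusedSectionVars false

namespace Pool.Agent.Lib.MP_b0a977_co

open Finset

variable {V : Type*} [Fintype V] [DecidableEq V]

/-- Data of a diametral path together with a choice of next vertices towards `v d`. -/
structure Geo (G : SimpleGraph V) (d : ℕ) where
  v : ℕ → V
  nx : V → V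
  conn : G.Connected
  hd : ∀ x y, G.dist x y ≤ d
  hv : ∀ i j, i ≤ j → j ≤ d → G.dist (v i) (v j) = j - i
  nx1 : ∀ x, x ≠ v d → G.dist x (nx x) = 1
  nx2 : ∀ x, x ≠ v d → G.dist (nx x) (v d) + 1 = G.dist x (v d)
  nx3 : ∀ i, i < d → nx (v i) = v (i + 1)

namespace Geo

variable {G : SimpleGraph V} {d : ℕ} (g : Geo G d)

/-- distance to the last vertex of the path -/
noncomputable def s (x : V) : ℕ := G.dist x (g.v d)

/-- the level of a vertex -/
noncomputable def δ (x : V) : ℕ := d - g.s x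

lemma s_le (x : V) : g.s x ≤ d := g.hd _ _

lemma s_eq_zero {x : V} : g.s x = 0 ↔ x = g.v d := g.conn.dist_eq_zero_iff

lemma δ_add_s (x : V) : g.δ x + g.s x = d := by
  have := g.s_le x; unfold δ; omega

lemma s_v {i : ℕ} (hi : i ≤ d) : g.s (g.v i) = d - i := g.hv i d hi le_rfl

lemma δ_v {i : ℕ} (hi : i ≤ d) : g.δ (g.v i) = i := by
  have := g.s_v hi; unfold δ; omega

lemma v_inj {i j : ℕ} (hi : i ≤ d) (hj : j ≤ d) (h : g.v i = g.v j) : i = j := by
  have h1 := g.δ_v hi
  have h2 := g.δ_v hj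
  rw [h] at h1; omega

lemma s_iter (x : V) (k : ℕ) (hk : k ≤ g.s x) : g.s (g.nx^[k] x) + k = g.s x := by
  induction k with
  | zero => simp
  | succ k ih =>
    have h1 := ih (by omega)
    have h2 : g.nx^[k] x ≠ g.v d := by
      intro h
      have := g.s_eq_zero.2 h
      omega
    have h3 := g.nx2 _ h2
    rw [Function.iterate_succ_apply']
    unfold s at *
    omega

lemma dist_iter (x : V) (k : ℕ) (hk : k ≤ g.s x) : G.dist x (g.nx^[k] x) ≤ k := by
  induction k with
  | zero => simp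
  | succ k ih =>
    have h1 := ih (by omega)
    have h2 : g.nx^[k] x ≠ g.v d := by
      intro h
      have := g.s_eq_zero.2 h
      have := g.s_iter x k (by omega)
      omega
    have h3 := g.nx1 _ h2
    rw [Function.iterate_succ_apply']
    have := g.conn.dist_triangle (u := x) (v := g.nx^[k] x) (w := g.nx (g.nx^[k] x))
    omega

/-- the vertex set of the path -/
def P : Finset V := (range (d + 1)).image g.v

lemma mem_P {x : V} : x ∈ g.P ↔ ∃ i ≤ d, g.v i = x := by
  simp [P]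

lemma iter_s (x : V) : g.nx^[g.s x] x = g.v d := by
  have := g.s_iter x (g.s x) le_rfl
  exact g.s_eq_zero.1 (by omega)

lemma exists_m (x : V) : ∃ k, g.nx^[k] x ∈ g.P :=
  ⟨g.s x, by rw [iter_s]; exact g.mem_P.2 ⟨d, le_rfl, rfl⟩⟩

/-- number of steps needed to reach the path -/
noncomputable def m (x : V) : ℕ := Nat.find (g.exists_m x)

lemma m_spec (x : V) : g.nx^[g.m x] x ∈ g.P := Nat.find_spec (g.exists_m x)

lemma m_le_s (x : V) : g.m x ≤ g.s x :=
  Nat.find_min' _ (by rw [iter_s]; exact g.mem_P.2 ⟨d, le_rfl, rfl⟩)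

lemma not_mem_of_lt {x : V} {k : ℕ} (hk : k < g.m x) : g.nx^[k] x ∉ g.P :=
  Nat.find_min (g.exists_m x) hk

/-- index of the vertex where the path is reached -/
noncomputable def p (x : V) : ℕ := g.δ x + g.m x

lemma p_le (x : V) : g.p x ≤ d := by
  have := g.m_le_s x
  have := g.δ_add_s x
  unfold p; omega

lemma iter_m (x : V) : g.nx^[g.m x] x = g.v (g.p x) := by
  obtain ⟨i, hi, h⟩ := g.mem_P.1 (g.m_spec x)
  have h1 := g.s_iter x (g.m x) (g.m_le_s x)
  have h2 := g.s_v hi
  rw [h] at h2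
  have h3 := g.δ_add_s x
  have h4 := g.m_le_s x
  have h5 : i = g.p x := by unfold p; omega
  rw [← h, h5]

lemma iter_ge (x : V) (k : ℕ) (h1 : g.m x ≤ k) (h2 : k ≤ g.s x) :
    g.nx^[k] x = g.v (g.δ x + k) := by
  induction k, h1 using Nat.le_induction with
  | base => exact g.iter_m x
  | succ k hk ih =>
    rw [Function.iterate_succ_apply', ih (by omega), g.nx3]
    · rfl
    · have := g.δ_add_s x; omega

lemma m_pos {x : V} (hx : x ∉ g.P) : 1 ≤ g.m x := by
  by_contra h
  have h0 : g.m x = 0 := by omega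
  have := g.m_spec x
  rw [h0] at this
  exact hx this

lemma m_iter (x : V) (i : ℕ) (hi : i ≤ g.m x) : g.m (g.nx^[i] x) + i = g.m x := by
  have h1 : g.m (g.nx^[i] x) ≤ g.m x - i := by
    apply Nat.find_min'
    rw [← Function.iterate_add_apply, Nat.sub_add_cancel hi]
    exact g.m_spec x
  have h2 : g.m x ≤ g.m (g.nx^[i] x) + i := by
    apply Nat.find_min'
    rw [Function.iterate_add_apply]
    exact g.m_spec _
  omega

lemma δ_iter (x : V) (i : ℕ) (hi : i ≤ g.s x) : g.δ (g.nx^[i] x) = g.δ x + i := by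
  have h1 := g.s_iter x i hi
  have h2 := g.δ_add_s x
  have h3 := g.δ_add_s (g.nx^[i] x)
  omega

lemma p_iter (x : V) (i : ℕ) (hi : i ≤ g.m x) : g.p (g.nx^[i] x) = g.p x := by
  have h1 := g.m_iter x i hi
  have h2 := g.δ_iter x i (hi.trans (g.m_le_s x))
  unfold p; omega

/-- vertices off the path which reach it at an index at most `c / 2` -/
noncomputable def L (c : ℕ) : Finset V := univ.filter fun x => x ∉ g.P ∧ 2 * g.p x ≤ c

lemma mem_L {c : ℕ} {x : V} : x ∈ g.L c ↔ x ∉ g.P ∧ 2 * g.p x ≤ c := by simp [L]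

lemma iter_mem_L {c : ℕ} {x : V} (hx : x ∈ g.L c) {i : ℕ} (hi : i < g.m x) :
    g.nx^[i] x ∈ g.L c := by
  rw [mem_L] at *
  exact ⟨g.not_mem_of_lt hi, by rw [g.p_iter x i hi.le]; exact hx.2⟩

lemma iter_injOn (x : V) {i j : ℕ} (hi : i ≤ g.s x) (hj : j ≤ g.s x)
    (h : g.nx^[i] x = g.nx^[j] x) : i = j := by
  have h1 := g.s_iter x i hi
  have h2 := g.s_iter x j hj
  rw [h] at h1; omega

lemma m_le_card {c : ℕ} {x : V} (hx : x ∈ g.L c) : g.m x ≤ #(g.L c) := by
  have : #((range (g.m x)).image fun i => g.nx^[i] x) = g.m x := by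
    rw [card_image_of_injOn, card_range]
    intro i hi j hj h
    simp only [coe_range, Set.mem_Iio] at hi hj
    have := g.m_le_s x
    exact g.iter_injOn x (by omega) (by omega) h
  rw [← this]
  apply card_le_card
  intro y hy
  simp only [mem_image, mem_range] at hy
  obtain ⟨i, hi, rfl⟩ := hy
  exact g.iter_mem_L hx hi

lemma m_anc {c : ℕ} {x : V} (hx : x ∈ g.L c) :
    (g.m x : ℤ) * (g.m x - 1) ≤ 2 * ((∑ y ∈ g.L c, (g.δ y : ℤ)) - g.δ x) := by
  have h0 : ∀ m : ℕ, ∑ i ∈ range m, (i : ℤ) * 2 = (m : ℤ) * (m - 1) := by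
    intro m
    induction m with
    | zero => simp
    | succ m ih => rw [sum_range_succ, ih]; push_cast; ring
  have hm1 : 1 ≤ g.m x := g.m_pos (g.mem_L.1 hx).1
  have h1 : ∑ y ∈ (Ico 1 (g.m x)).image (fun i => g.nx^[i] x), (g.δ y : ℤ)
      ≤ ∑ y ∈ (g.L c).erase x, (g.δ y : ℤ) := by
    apply sum_le_sum_of_subset_of_nonneg
    · intro y hy
      simp only [mem_image, mem_Ico] at hy
      obtain ⟨i, hi, rfl⟩ := hy
      rw [mem_erase]
      refine ⟨?_, g.iter_mem_L hx hi.2⟩
      intro h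
      have := g.m_le_s x
      have := g.iter_injOn x (i := i) (j := 0) (by omega) (by omega) (by simpa using h)
      omega
    · intros; positivity
  rw [sum_image] at h1
  · have h2 : ∑ i ∈ Ico 1 (g.m x), (i : ℤ) ≤ ∑ i ∈ Ico 1 (g.m x), (g.δ (g.nx^[i] x) : ℤ) := by
      apply sum_le_sum
      intro i hi
      rw [mem_Ico] at hi
      rw [g.δ_iter x i (by have := g.m_le_s x; omega)]
      push_cast; linarith [Int.natCast_nonneg (g.δ x)]
    have h3 : ∑ i ∈ Ico 1 (g.m x), (i : ℤ) = ∑ i ∈ range (g.m x), (i : ℤ) := by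
      rw [range_eq_Ico, sum_eq_sum_Ico_succ_bot (a := 0) (by omega)]
      simp
    have h4 : ∑ y ∈ (g.L c).erase x, (g.δ y : ℤ) = (∑ y ∈ g.L c, (g.δ y : ℤ)) - g.δ x := by
      rw [← add_sum_erase _ _ hx]; ring
    have h5 := h0 (g.m x)
    rw [← sum_mul] at h5
    linarith
  · intro i hi j hj h
    simp only [coe_Ico, Set.mem_Ico] at hi hj
    have := g.m_le_s x
    exact g.iter_injOn x (by omega) (by omega) h

end Geo

end Pool.Agent.Lib.MP_b0a977_co
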