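import Pool.Agent.Lib.MP_b0a977_co.Side

set_option linter.unusedSectionVars false

namespace Pool.Agent.Lib.MP_b0a977_co

open Finset

namespace Geo

variable {V : Type*} [Fintype V] [DecidableEq V]
variable {G : SimpleGraph V} {d : ℕ} (g : Geo G d)

lemma image_u_card (c j : ℕ) (hj : j ≤ d) :
    #(((g.L c).filter fun x => g.δ x < j).image (g.u j))
      ≤ #((g.L c).filter fun x => g.δ x = j) + 1 := by
  have : ((g.L c).filter fun x => g.δ x < j).image (g.u j)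
      ⊆ insert (g.v j) ((g.L c).filter fun x => g.δ x = j) := by
    intro y hy
    simp only [mem_image, mem_filter] at hy
    obtain ⟨x, ⟨hx, hxj⟩, rfl⟩ := hy
    rw [mem_insert]
    have hs := g.δ_add_s x
    have hms := g.m_le_s x
    rcases Nat.lt_or_ge (j - g.δ x) (g.m x) with h | h
    · right
      rw [mem_filter]
      refine ⟨g.iter_mem_L hx h, ?_⟩
      unfold u
      rw [g.δ_iter x _ (by omega)]; omega
    · left
      unfold u
      rw [g.iter_ge x _ h (by omega)]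
      congr 1; omega
  refine (card_le_card this).trans ?_
  exact card_insert_le _ _

lemma sum_F (c : ℕ) :
    2 * ∑ q ∈ (g.L c).offDiag,
      #((Ioc 0 d).filter fun j => g.δ q.1 < j ∧ g.δ q.2 < j ∧ g.u j q.1 ≠ g.u j q.2)
      ≤ #(g.L c) ^ 2 * #((g.L c).filter fun x => 1 ≤ g.δ x) := by
  classical
  have h1 : ∑ q ∈ (g.L c).offDiag,
      #((Ioc 0 d).filter fun j => g.δ q.1 < j ∧ g.δ q.2 < j ∧ g.u j q.1 ≠ g.u j q.2)
      ≤ ∑ q ∈ (g.L c) ×ˢ (g.L c),
      #((Ioc 0 d).filter fun j => g.δ q.1 < j ∧ g.δ q.2 < j ∧ g.u j q.1 ≠ g.u j q.2) := by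
    apply sum_le_sum_of_subset
    intro q hq
    rw [mem_offDiag] at hq
    exact mem_product.2 ⟨hq.1, hq.2.1⟩
  have h2 : ∑ q ∈ (g.L c) ×ˢ (g.L c),
      #((Ioc 0 d).filter fun j => g.δ q.1 < j ∧ g.δ q.2 < j ∧ g.u j q.1 ≠ g.u j q.2)
      = ∑ j ∈ Ioc 0 d, #((((g.L c).filter fun x => g.δ x < j) ×ˢ
          ((g.L c).filter fun x => g.δ x < j)).filter fun q => g.u j q.1 ≠ g.u j q.2) := by
    simp_rw [card_filter]
    rw [sum_comm]
    apply sum_congr rfl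
    intro j hj
    rw [← card_filter, ← card_filter]
    congr 1
    ext ⟨x, y⟩
    simp only [mem_filter, mem_product]
    tauto
  have h3 : ∀ j ∈ Ioc 0 d, 2 * #((((g.L c).filter fun x => g.δ x < j) ×ˢ
          ((g.L c).filter fun x => g.δ x < j)).filter fun q => g.u j q.1 ≠ g.u j q.2)
      ≤ #(g.L c) ^ 2 * #((g.L c).filter fun x => g.δ x = j) := by
    intro j hj
    rw [mem_Ioc] at hj
    refine (neq_pairs _ _ _ (g.image_u_card c j hj.2)).trans ?_
    apply Nat.mul_le_mul_right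
    apply Nat.pow_le_pow_left
    exact card_le_card (filter_subset _ _)
  have h4 : ∑ j ∈ Ioc 0 d, #((g.L c).filter fun x => g.δ x = j)
      = #((g.L c).filter fun x => 1 ≤ g.δ x) := by
    rw [card_eq_sum_card_fiberwise (f := fun x => g.δ x) (t := Ioc 0 d)]
    · apply sum_congr rfl
      intro j hj
      rw [mem_Ioc] at hj
      congr 1
      ext x
      simp only [mem_filter]
      constructor
      · rintro ⟨a, b⟩; exact ⟨⟨a, by omega⟩, b⟩
      · rintro ⟨⟨a, _⟩, b⟩; exact ⟨a, b⟩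
    · intro x hx
      simp only [coe_filter, Set.mem_ofPred_eq] at hx
      have := g.δ_add_s x
      have h5 : 0 < g.δ x ∧ g.δ x ≤ d := ⟨by omega, by omega⟩
      exact mem_coe.2 (mem_Ioc.2 h5)
  calc _ ≤ 2 * ∑ j ∈ Ioc 0 d, #((((g.L c).filter fun x => g.δ x < j) ×ˢ
          ((g.L c).filter fun x => g.δ x < j)).filter fun q => g.u j q.1 ≠ g.u j q.2) := by
        rw [← h2]; exact Nat.mul_le_mul_left _ h1
    _ ≤ ∑ j ∈ Ioc 0 d, #(g.L c) ^ 2 * #((g.L c).filter fun x => g.δ x = j) := by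
        rw [mul_sum]; exact sum_le_sum h3
    _ = _ := by rw [← mul_sum, h4]

lemma sum_offDiag_add (L : Finset V) (f : V → ℤ) :
    ∑ q ∈ L.offDiag, (f q.1 + f q.2) = 2 * ((#L : ℤ) - 1) * ∑ x ∈ L, f x := by
  have h := sum_product L L (fun q => f q.1 + f q.2)
  have h2 : ∑ q ∈ L ×ˢ L, (f q.1 + f q.2)
      = ∑ q ∈ L.offDiag, (f q.1 + f q.2) + ∑ q ∈ L.diag, (f q.1 + f q.2) := by
    rw [← diag_union_offDiag L, sum_union (disjoint_diag_offDiag L), add_comm]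
  have h3 : ∑ q ∈ L.diag, (f q.1 + f q.2) = 2 * ∑ x ∈ L, f x := by
    rw [sum_diag, mul_sum]
    apply sum_congr rfl; intros; ring
  have h4 : ∑ x ∈ L, ∑ y ∈ L, (f x + f y) = 2 * #L * ∑ x ∈ L, f x := by
    simp only [sum_add_distrib, sum_const, nsmul_eq_mul]
    rw [← mul_sum]; ring
  simp only at h
  rw [h4, h2, h3] at h
  linarith

lemma offDiag_le (c : ℕ) :
    ∑ q ∈ (g.L c).offDiag, (G.dist q.1 q.2 : ℤ)
      ≤ 2 * ((#(g.L c) : ℤ) - 1) * ∑ x ∈ g.L c, (g.δ x : ℤ)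
        + 2 * #(g.L c) * (#(g.L c) - 1)
        + #(g.L c) ^ 2 * #((g.L c).filter fun x => 1 ≤ g.δ x) := by
  have h1 : ∑ q ∈ (g.L c).offDiag, (G.dist q.1 q.2 : ℤ)
      ≤ ∑ q ∈ (g.L c).offDiag, (((g.δ q.1 : ℤ) + g.δ q.2) + 2
        + 2 * #((Ioc 0 d).filter fun j => g.δ q.1 < j ∧ g.δ q.2 < j ∧ g.u j q.1 ≠ g.u j q.2)) := by
    apply sum_le_sum
    intro q _
    exact_mod_cast g.dist_le_pair q.1 q.2
  rw [sum_add_distrib, sum_add_distrib, sum_offDiag_add (g.L c) (fun x => (g.δ x : ℤ)),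
    ← mul_sum] at h1
  have h2 : ((2 * ∑ q ∈ (g.L c).offDiag,
      #((Ioc 0 d).filter fun j => g.δ q.1 < j ∧ g.δ q.2 < j ∧ g.u j q.1 ≠ g.u j q.2) : ℕ) : ℤ)
      ≤ ((#(g.L c) ^ 2 * #((g.L c).filter fun x => 1 ≤ g.δ x) : ℕ) : ℤ) := by
    exact_mod_cast g.sum_F c
  push_cast at h2
  have h3 : ∑ q ∈ (g.L c).offDiag, (2 : ℤ) = 2 * #(g.L c) * (#(g.L c) - 1) := by
    rw [sum_const, offDiag_card, nsmul_eq_mul,
      Nat.cast_sub (Nat.le_mul_self _)]
    push_cast; ring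
  rw [h3] at h1
  linarith

theorem one_side (c : ℕ) (hc : c ≤ d) (ha : 12 * #(g.L c) ≤ d + 10) :
    2 * ∑ x ∈ g.L c, g.D x + ∑ q ∈ (g.L c).offDiag, (G.dist q.1 q.2 : ℤ)
      ≤ #(g.L c) * (d * (d + 1)) + 2 * #(g.L c) * (#(g.L c) + 1)
        + #((g.L c).filter fun x => 1 ≤ g.δ x)
          * ((#(g.L c) : ℤ) ^ 2 + 24 * #(g.L c) - 8 - 2 * d) := by
  have h1 := g.offDiag_le c
  set L := g.L c with hL
  set a : ℤ := (#L : ℤ) with haa
  set Δ : ℤ := ∑ x ∈ L, (g.δ x : ℤ) with hΔ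
  have ha' : 12 * a ≤ d + 10 := by rw [haa]; exact_mod_cast ha
  have h2 : ∀ x ∈ L, 2 * g.D x ≤ (d * (d + 1) + 4 + 8 * (Δ - g.δ x)
      - 10 * (a - 1) * g.δ x) + (if 1 ≤ g.δ x then 24 * a - 8 - 2 * d else 0) := by
    intro x hx
    have h3 := g.D_le x
    have h4 : (g.m x : ℤ) * (g.m x - 1) ≤ 2 * (Δ - g.δ x) := g.m_anc hx
    have h5 : 1 ≤ g.m x := g.m_pos (g.mem_L.1 hx).1
    have h6 : g.m x ≤ #L := g.m_le_card hx
    have h7 : 2 * g.p x ≤ c := (g.mem_L.1 hx).2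
    have h8 : 2 * (g.δ x : ℤ) + 2 * g.m x ≤ d := by
      have : 2 * (g.δ x + g.m x) ≤ d := h7.trans hc
      have : (2 * (g.δ x + g.m x) : ℤ) ≤ d := by exact_mod_cast this
      linarith
    have h5' : (1 : ℤ) ≤ g.m x := by exact_mod_cast h5
    have h6' : (g.m x : ℤ) ≤ a := by rw [haa]; exact_mod_cast h6
    generalize (g.m x : ℤ) = m at *
    -- 2 m (m+1) ≤ 4 + 4 m (m-1)
    have h9 : 2 * m * (m + 1) ≤ 4 + 4 * (m * (m - 1)) := by
      rcases eq_or_lt_of_le h5' with h | h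
      · rw [← h]; norm_num
      · have : (2 : ℤ) ≤ m := by linarith
        nlinarith
    have h10 : (0 : ℤ) ≤ g.δ x := by positivity
    split_ifs with hδ
    · rcases Nat.lt_or_ge (g.δ x) 2 with h | h
      · have hd1 : (g.δ x : ℤ) = 1 := by
          have : g.δ x = 1 := by omega
          rw [this]; rfl
        rw [hd1] at h3 h4 ⊢
        nlinarith
      · have h' : (2 : ℤ) ≤ g.δ x := by exact_mod_cast h
        generalize (g.δ x : ℤ) = t at *
        -- factor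
        have h11 : 10 * a - 10 - 2 * d + 2 * t + 4 * m ≤ 12 * a - 10 - d := by linarith
        have h12 : 10 * a - 10 - 2 * d + 2 * t + 4 * m ≤ 0 := by linarith
        have h13 : t * (10 * a - 10 - 2 * d + 2 * t + 4 * m)
            ≤ 2 * (10 * a - 10 - 2 * d + 2 * t + 4 * m) := by nlinarith
        nlinarith
    · have hd0 : (g.δ x : ℤ) = 0 := by
          have : g.δ x = 0 := by omega
          rw [this]; rfl
      rw [hd0] at h3 h4 ⊢
      nlinarith
  have h3 := sum_le_sum h2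
  rw [← mul_sum, sum_add_distrib, ← sum_filter, sum_const, nsmul_eq_mul, sum_sub_distrib,
    sum_add_distrib, ← mul_sum, ← mul_sum, sum_sub_distrib, sum_const, sum_const,
    nsmul_eq_mul, nsmul_eq_mul, ← hΔ, ← haa] at h3
  linarith

end Geo

end Pool.Agent.Lib.MP_b0a977_co
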