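import Pool.Agent.Lib.MP_b0a977_co.Brooms

set_option linter.unusedSectionVars false

namespace Pool.Agent.Lib.MP_b0a977_co

open Finset

lemma abs2_cast (i : ℕ) : (((i - 2) + (2 - i) : ℕ) : ℤ) = |(2 : ℤ) - i| := by
  rcases le_total i 2 with h | h
  · rw [Nat.sub_eq_zero_of_le h, abs_of_nonneg (by have : (i : ℤ) ≤ 2 := by exact_mod_cast h
                                                   linarith)]
    push_cast [h]; ring
  · rw [Nat.sub_eq_zero_of_le h, abs_of_nonpos (by have : (2 : ℤ) ≤ i := by exact_mod_cast h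
                                                   linarith)]
    push_cast [h]; ring

/-- The double broom in which part of the leaves at one end is moved to a spur. -/
theorem spurBroom (d a b r : ℕ) (hd : 4 ≤ d) (hr : 1 ≤ r) :
    ∃ G : SimpleGraph (Fin (d + 1 + (a + 1 + r + b))), G.Connected ∧ G.diam = d ∧
      3 * ∑ x, ∑ y, (G.dist x y : ℤ) = d * (d + 1) * (d + 2)
        + 3 * ((a + 1 + r + b) * (d * (d + 1)) + 2 * (a + 1 + r) * (a + 1 + r + 1)
          + 2 * b * (b + 1) + 2 * (a + 1 + r) * b * d)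
        + 3 * (6 + 6 * r - 2 * d - 2 * b + 2 * a + 4 * a * r) := by
  obtain ⟨m, rfl⟩ : ∃ m, d = m + 1 := ⟨d - 1, by omega⟩
  set d := m + 1 with hdm
  obtain ⟨hK, hdist⟩ := spurK_dist d (by omega)
  let mult : Fin (d + 1) ⊕ Fin 2 → ℕ := Sum.elim (fun i => 1 + (if i = 0 then a else 0)
    + (if i = Fin.last d then b else 0)) (fun k => if k = 0 then 1 else r)
  have hS : ∀ h : Fin (d + 1) ⊕ Fin 2 → ℤ, ∑ w, (mult w : ℤ) * h w
      = ∑ i, h (Sum.inl i) + a * h (Sum.inl 0) + b * h (Sum.inl (Fin.last d))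
        + h (Sum.inr 0) + r * h (Sum.inr 1) := by
    intro h
    rw [Fintype.sum_sum_type]
    simp only [mult, Sum.elim_inl, Sum.elim_inr, Fin.sum_univ_two]
    push_cast
    simp only [add_mul, one_mul, ite_mul, zero_mul, sum_add_distrib, sum_ite_eq', mem_univ,
      if_true]
    ring
  have hne : (0 : Fin (d + 1)) ≠ Fin.last d := by
    intro h
    have := congrArg Fin.val h
    simp at this
  have hn : d + 1 + (a + 1 + r + b) = ∑ w, mult w := by
    have h1 := hS (fun _ => 1)
    simp only [mul_one, sum_const, card_univ, Fintype.card_fin, nsmul_eq_mul] at h1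
    have h2 : ((d + 1 + (a + 1 + r + b) : ℕ) : ℤ) = ((∑ w, mult w : ℕ) : ℤ) := by
      push_cast at h1 ⊢; linarith
    exact_mod_cast h2
  have : Nontrivial (Fin (d + 1) ⊕ Fin 2) :=
    ⟨Sum.inr 0, Sum.inr 1, fun h => absurd (Sum.inr_injective h) (by decide)⟩
  obtain ⟨G, h1, h2, h3⟩ := blowup (spurK d) hK mult
    (by
      rintro (i | k)
      · simp only [mult, Sum.elim_inl]; omega
      · simp only [mult, Sum.elim_inr]; split_ifs <;> omega)
    (d + 1 + (a + 1 + r + b)) hn d (Or.inl (by omega))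
    (by
      rintro (i | k) (j | l) <;> rw [hdist] <;> simp only [fS]
      · omega
      · have := l.2; omega
      · have := k.2; omega
      · have := k.2; have := l.2; omega)
    ⟨Sum.inl 0, Sum.inl (Fin.last d), by rw [hdist]; simp [fS], by
      intro h; exact hne (Sum.inl_injective h)⟩
  refine ⟨G, h1, h2, ?_⟩
  rw [h3]
  -- inner sums
  let F : Fin (d + 1) ⊕ Fin 2 → ℤ := Sum.elim
    (fun i => ∑ j : Fin (d + 1), |(i.val : ℤ) - j.val| + a * i.val + b * (d - i.val)
      + (|(2 : ℤ) - i.val| + 1) + r * (|(2 : ℤ) - i.val| + 2))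
    (fun k => if k = 0 then ∑ j : Fin (d + 1), (|(2 : ℤ) - j.val| + 1) + a * 3 + b * (d - 1) + r
      else ∑ j : Fin (d + 1), (|(2 : ℤ) - j.val| + 2) + a * 4 + b * d + 1)
  have e1 : ∀ w, ∑ w', (mult w : ℤ) * mult w' * (spurK d).dist w w' = mult w * F w := by
    intro w
    have e2 : ∑ w', (mult w : ℤ) * mult w' * (spurK d).dist w w'
        = mult w * ∑ w', (mult w' : ℤ) * (spurK d).dist w w' := by
      rw [mul_sum]; apply sum_congr rfl; intros; ring
    rw [e2, hS (fun w' => ((spurK d).dist w w' : ℤ))]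
    simp only [hdist]
    congr 1
    have habs : ∀ i j : Fin (d + 1), ((i.val - j.val + (j.val - i.val) : ℕ) : ℤ)
        = |(i.val : ℤ) - j.val| := fun i j => fP_cast d i j
    have hd2 : |(2 : ℤ) - d| = d - 2 := by
      rw [abs_of_nonpos]
      · ring
      · have : (4 : ℤ) ≤ d := by exact_mod_cast hd
        linarith
    rcases w with i | k
    · simp only [fS, F, Sum.elim_inl]
      have a1 : (((i.val - 2) + (2 - i.val) : ℕ) : ℤ) = |(2 : ℤ) - i.val| := abs2_cast _
      have a2 := habs i 0
      have a3 := habs i (Fin.last d)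
      simp only [Fin.val_last] at a3
      have : i.val ≤ d := by omega
      have a4 : |(i.val : ℤ) - d| = d - i.val := by
        rw [abs_of_nonpos]
        · ring
        · have : (i.val : ℤ) ≤ d := by exact_mod_cast this
          linarith
      rw [a4] at a3
      have a5 : |(i.val : ℤ) - ((0 : Fin (d + 1)).val : ℤ)| = i.val := by
        simp
      rw [a5] at a2
      simp only [Fin.val_last]
      rw [sum_congr rfl fun j _ => habs i j, a2, a3]
      have v0 : ((0 : Fin 2).val) = 0 := rfl
      have v1 : ((1 : Fin 2).val) = 1 := rfl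
      rw [v0, v1]
      push_cast [a1] at *
      rw [← a1]
      push_cast
      ring
    · have v0 : ((0 : Fin 2).val) = 0 := rfl
      have v1 : ((1 : Fin 2).val) = 1 := rfl
      have a1 : ∀ j : Fin (d + 1), (((j.val - 2) + (2 - j.val) + 1 + k.val : ℕ) : ℤ)
          = |(2 : ℤ) - j.val| + 1 + k.val := by
        intro j
        have := abs2_cast j.val
        push_cast at this ⊢
        rw [this]
      have a2 := a1 0
      have a3 := a1 (Fin.last d)
      simp only [Fin.val_last] at a3
      rw [hd2] at a3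
      have hk : k = 0 ∨ k = 1 := by
        have := k.2
        rcases Nat.eq_zero_or_pos k.val with h | h
        · left; exact Fin.ext h
        · right; apply Fin.ext; rw [v1]; omega
      simp only [fS, F, Sum.elim_inr, Fin.val_last]
      rw [sum_congr rfl fun j _ => a1 j, a2, a3]
      have hz : ((0 : Fin (d + 1)).val : ℤ) = 0 := rfl
      rw [hz]
      have h20 : |(2 : ℤ) - 0| = 2 := by norm_num
      rw [h20]
      rcases hk with rfl | rfl
      · rw [if_pos rfl, v0, v1]
        simp only [Nat.cast_zero, add_zero]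
        push_cast
        ring
      · rw [if_neg (by decide), v0, v1]
        have : ∀ j : Fin (d + 1), |(2 : ℤ) - j.val| + 1 + ((1 : ℕ) : ℤ)
            = |(2 : ℤ) - j.val| + 2 := by
          intro j; push_cast; ring
        simp only [this]
        push_cast
        ring
  simp_rw [e1]
  rw [hS F]
  have e10 : ∑ w, (mult w : ℤ) * (mult w - 1) = a + b + a * a + b * b + r * (r - 1) := by
    have := hS (fun w => (mult w : ℤ) - 1)
    rw [this]
    simp only [mult, Sum.elim_inl, Sum.elim_inr]
    push_cast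
    simp only [hne, hne.symm, if_false]
    have h10 : ∑ x : Fin (d + 1), ((1 : ℤ) + (if x = 0 then (a : ℤ) else 0)
        + (if x = Fin.last d then (b : ℤ) else 0) - 1) = a + b := by
      simp only [sum_sub_distrib, sum_add_distrib, sum_ite_eq', mem_univ, if_true]
      ring
    rw [h10]
    ring
  rw [e10]
  have e3 : ∀ w : Fin (d + 1), 2 * (∑ w' : Fin (d + 1), |(w.val : ℤ) - w'.val|)
      = (w.val : ℤ) * (w.val + 1) + (d - w.val) * (d - w.val + 1) :=
    fun w => sum_fin_abs d w.val (by omega)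
  have e4 : 2 * ∑ w : Fin (d + 1), (w.val : ℤ) = d * (d + 1) := by
    have := sum_fin_abs d 0 (Nat.zero_le _)
    simp only [Nat.cast_zero, zero_sub, abs_neg, Nat.abs_cast] at this
    rw [this]; ring
  have e6 : 2 * ∑ w : Fin (d + 1), ∑ w' : Fin (d + 1), |(w.val : ℤ) - w'.val|
      = ∑ i : Fin (d + 1), ((i.val : ℤ) * (i.val + 1) + (d - i.val) * (d - i.val + 1)) := by
    rw [mul_sum]; exact sum_congr rfl fun w _ => e3 w
  have e7 := sum_fin_sq d
  rw [← e6] at e7
  have e5 : 2 * ∑ j : Fin (d + 1), |(2 : ℤ) - j.val| = 2 * 3 + (d - 2) * (d - 2 + 1) := by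
    have := sum_fin_abs d 2 (by omega)
    exact_mod_cast this
  have e8 : 2 * ∑ w' : Fin (d + 1), |((0 : Fin (d + 1)).val : ℤ) - w'.val| = d * (d + 1) := by
    rw [e3]; simp
  have e9 : 2 * ∑ w' : Fin (d + 1), |((Fin.last d).val : ℤ) - w'.val| = d * (d + 1) := by
    rw [e3]; simp
  have hd2 : |(2 : ℤ) - d| = d - 2 := by
    rw [abs_of_nonpos]
    · ring
    · have : (4 : ℤ) ≤ d := by exact_mod_cast hd
      linarith
  have h01 : ¬ ((1 : Fin 2) = 0) := by decide
  simp only [F, Sum.elim_inl, Sum.elim_inr, h01, if_false, if_true, sum_add_distrib, ← mul_sum,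
    sum_sub_distrib, sum_const, card_univ, Fintype.card_fin, nsmul_eq_mul, Fin.val_zero,
    Fin.val_last, Nat.cast_zero, hd2] at e8 e9 ⊢
  have h20 : |(2 : ℤ) - 0| = 2 := by norm_num
  rw [h20]
  push_cast
  apply mul_left_cancel₀ (two_ne_zero (α := ℤ))
  linear_combination e7 + 3 * (a : ℤ) * e8 + 3 * (b : ℤ) * e9 + 3 * (a : ℤ) * e4 - 3 * (b : ℤ) * e4
    + (6 + 6 * (r : ℤ)) * e5
end Pool.Agent.Lib.MP_b0a977_co
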