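import Pool.Agent.Lib.MP_b0a977_co.OneSide
import Pool.Agent.Lib.MP_b0a977_co.Arith

set_option linter.unusedSectionVars false

namespace Pool.Agent.Lib.MP_b0a977_co

open Finset

variable {V : Type*} [Fintype V] [DecidableEq V] {G : SimpleGraph V} {d : ℕ}

lemma exists_next (hc : G.Connected) {x w : V} (h : x ≠ w) :
    ∃ y, G.dist x y = 1 ∧ G.dist y w + 1 = G.dist x w := by
  obtain ⟨q, hq⟩ := hc.exists_walk_length_eq_dist x w
  cases q with
  | nil => exact absurd rfl h
  | @cons _ y _ hadj q =>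
    have h1 : G.dist x y = 1 := SimpleGraph.dist_eq_one_iff_adj.2 hadj
    have h2 : G.dist y w ≤ q.length := SimpleGraph.dist_le q
    have h3 := hc.dist_triangle (u := x) (v := y) (w := w)
    rw [SimpleGraph.Walk.length_cons] at hq
    exact ⟨y, h1, by omega⟩

lemma exists_geo (hc : G.Connected) (hd : ∀ x y, G.dist x y ≤ d) (v : ℕ → V)
    (hv : ∀ i j, i ≤ j → j ≤ d → G.dist (v i) (v j) = j - i) : ∃ g : Geo G d, g.v = v := by
  classical
  have hinj : ∀ i j, i ≤ d → j ≤ d → v i = v j → i = j := by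
    intro i j hi hj h
    have h1 := hv i d hi le_rfl
    have h2 := hv j d hj le_rfl
    rw [h] at h1; omega
  let nx : V → V := fun x => if h : ∃ i, i < d ∧ v i = x then v (h.choose + 1) else
    if h : x = v d then x else (exists_next hc h).choose
  have hnx3 : ∀ i, i < d → nx (v i) = v (i + 1) := by
    intro i hi
    have h : ∃ j, j < d ∧ v j = v i := ⟨i, hi, rfl⟩
    have h2 := h.choose_spec
    have h3 : h.choose = i := hinj _ _ (by omega) (by omega) h2.2
    simp only [nx, dif_pos h, h3]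
  have hnx : ∀ x, x ≠ v d → G.dist x (nx x) = 1 ∧ G.dist (nx x) (v d) + 1 = G.dist x (v d) := by
    intro x hx
    by_cases h : ∃ i, i < d ∧ v i = x
    · obtain ⟨i, hi, rfl⟩ := h
      rw [hnx3 i hi, hv i (i + 1) (by omega) (by omega), hv (i + 1) d (by omega) le_rfl,
        hv i d (by omega) le_rfl]
      omega
    · simp only [nx, dif_neg h, dif_neg hx]
      exact (exists_next hc hx).choose_spec
  exact ⟨⟨v, nx, hc, hd, hv, fun x hx => (hnx x hx).1, fun x hx => (hnx x hx).2, hnx3⟩, rfl⟩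

namespace Geo

variable (g g' : Geo G d)

lemma dist_v0 (h : ∀ i ≤ d, g'.v i = g.v (d - i)) (x : V) :
    d ≤ g.p x + g'.p x ∧ g.p x + g'.p x ≤ d + g.m x + g'.m x := by
  have hp := g.p_le x
  have hp' := g'.p_le x
  have h1 := g.dist_iter x (g.m x) (g.m_le_s x)
  rw [g.iter_m] at h1
  have h2 := g'.dist_iter x (g'.m x) (g'.m_le_s x)
  rw [g'.iter_m, h _ hp'] at h2
  have hs := g.δ_add_s x
  have hs' := g'.δ_add_s x
  have e1 : g.s x = G.dist x (g.v d) := rfl
  have e2 : g'.s x = G.dist x (g.v 0) := by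
    unfold s; rw [h d le_rfl, Nat.sub_self]
  have e3 : g.p x = g.δ x + g.m x := rfl
  have e4 : g'.p x = g'.δ x + g'.m x := rfl
  constructor
  · by_contra hcon
    have t1 := g.conn.dist_triangle (u := x) (v := g.v (g.p x)) (w := g.v 0)
    have t2 := g.conn.dist_triangle (u := x) (v := g.v (d - g'.p x)) (w := g.v d)
    rw [SimpleGraph.dist_comm (u := g.v (g.p x)), g.hv 0 _ (Nat.zero_le _) hp] at t1
    rw [g.hv (d - g'.p x) d (by omega) le_rfl] at t2
    omega
  · by_contra hcon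
    have t1 := g.conn.dist_triangle (u := g.v (d - g'.p x)) (v := x) (w := g.v (g.p x))
    rw [SimpleGraph.dist_comm (u := g.v (d - g'.p x)) (v := x),
      g.hv (d - g'.p x) (g.p x) (by omega) hp] at t1
    omega

lemma P_eq (h : ∀ i ≤ d, g'.v i = g.v (d - i)) : g'.P = g.P := by
  ext x
  rw [mem_P, mem_P]
  constructor
  · rintro ⟨i, hi, rfl⟩; exact ⟨d - i, by omega, (h i hi).symm⟩
  · rintro ⟨i, hi, rfl⟩
    exact ⟨d - i, by omega, by rw [h _ (by omega)]; congr 1; omega⟩

lemma D_eq (h : ∀ i ≤ d, g'.v i = g.v (d - i)) (x : V) : g'.D x = g.D x := by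
  unfold D
  rw [← sum_range_reflect]
  apply sum_congr rfl
  intro i hi
  rw [mem_range] at hi
  rw [h _ (by omega)]
  congr 3; omega

lemma card_P : #g.P = d + 1 := by
  unfold P
  rw [card_image_of_injOn, card_range]
  intro i hi j hj hij
  simp only [coe_range, Set.mem_Iio] at hi hj
  exact g.v_inj (by omega) (by omega) hij

lemma sum_P (f : V → ℤ) : ∑ y ∈ g.P, f y = ∑ l ∈ range (d + 1), f (g.v l) := by
  unfold P
  rw [sum_image]
  intro i hi j hj hij
  simp only [coe_range, Set.mem_Iio] at hi hj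
  exact g.v_inj (by omega) (by omega) hij

lemma sum_PP : 3 * ∑ x ∈ g.P, ∑ y ∈ g.P, (G.dist x y : ℤ) = d * (d + 1) * (d + 2) := by
  have h1 : ∀ i ∈ range (d + 1), 2 * ∑ y ∈ g.P, (G.dist (g.v i) y : ℤ)
      = (i * (i + 1) + (d - i) * (d - i + 1) : ℤ) := by
    intro i hi
    rw [mem_range] at hi
    rw [sum_P, ← sum_abs i d (by omega)]
    congr 1
    apply sum_congr rfl
    intro l hl
    rw [mem_range] at hl
    rcases le_total i l with h | h
    · rw [g.hv _ _ h (by omega), abs_of_nonpos (by have : (i : ℤ) ≤ l := by exact_mod_cast h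
                                                   linarith)]
      push_cast [h]; ring
    · rw [SimpleGraph.dist_comm, g.hv _ _ h (by omega),
        abs_of_nonneg (by have : (l : ℤ) ≤ i := by exact_mod_cast h
                          linarith)]
      push_cast [h]; ring
  rw [sum_P]
  have h2 := sum_congr rfl h1
  rw [← mul_sum] at h2
  have h3 : ∀ n : ℕ, 3 * ∑ i ∈ range (n + 1), ((i : ℤ) * (i + 1)) = n * (n + 1) * (n + 2) := by
    intro n
    induction n with
    | zero => simp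
    | succ n ih => rw [sum_range_succ, mul_add, ih]; push_cast; ring
  have h4 : ∑ i ∈ range (d + 1), (((d : ℤ) - i) * (d - i + 1))
      = ∑ i ∈ range (d + 1), ((i : ℤ) * (i + 1)) := by
    rw [← sum_range_reflect]
    apply sum_congr rfl
    intro i hi
    rw [mem_range] at hi
    have : ((d + 1 - 1 - i : ℕ) : ℤ) = d - i := by
      rw [Nat.add_sub_cancel]; push_cast [show i ≤ d by omega]; ring
    rw [this]; ring
  rw [sum_add_distrib, h4] at h2
  have h5 := h3 d
  linarith

theorem upper (h : ∀ i ≤ d, g'.v i = g.v (d - i)) (e : ℕ) (hcard : Fintype.card V = d + 1 + e)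
    (he : e ^ 2 + 96 * e ≤ 8 * d) :
    3 * ∑ x, ∑ y, (G.dist x y : ℤ) ≤ d * (d + 1) * (d + 2) + 3 * (e * (d * (d + 1))
      + 2 * e * (e + 1) + 2 * ((e ^ 2 / 4 : ℕ) : ℤ) * (d - 2)) := by
  set X : Finset V := g.Pᶜ with hX
  have hXcard : #X = e := by
    have := card_compl_add_card g.P
    rw [g.card_P, hcard] at this
    rw [hX]; omega
  rcases Nat.eq_zero_or_pos e with he0 | he0
  · -- no further vertices
    have hX0 : X = ∅ := by rw [← card_eq_zero, hXcard, he0]
    have hP : g.P = univ := by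
      have := compl_eq_empty_iff (s := g.P)
      rw [← this]; exact hX0
    have := g.sum_PP
    rw [hP] at this
    rw [this, he0]; norm_num
  have hde : 12 * e ≤ d := by nlinarith
  set A := g.L d with hA
  set B := g'.L (d - 1) with hB
  have hPP := P_eq g g' h
  have hmA : ∀ x, x ∈ A ↔ x ∉ g.P ∧ 2 * g.p x ≤ d := fun x => g.mem_L
  have hmB : ∀ x, x ∈ B ↔ x ∉ g.P ∧ 2 * g'.p x ≤ d - 1 := fun x => by
    rw [hB, g'.mem_L, hPP]
  have hAB : Disjoint A B := by
    rw [disjoint_left]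
    intro x hx hx'
    have h1 := ((hmA x).1 hx).2
    have h2 := ((hmB x).1 hx').2
    have h3 := (dist_v0 g g' h x).1
    omega
  have hmX : ∀ x, x ∈ X ↔ x ∉ g.P := fun x => by rw [hX, mem_compl]
  have hABX : A ∪ B ⊆ X := by
    intro x hx
    rw [mem_union] at hx
    rw [hmX]
    rcases hx with hx | hx
    · exact ((hmA x).1 hx).1
    · exact ((hmB x).1 hx).1
  set M := X \ (A ∪ B) with hM
  have hcM : #M + #(A ∪ B) = e := by
    rw [← hXcard]; exact card_sdiff_add_card_eq_card hABX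
  have hcAB : #(A ∪ B) = #A + #B := card_union_of_disjoint hAB
  -- the two sides
  have sA := g.one_side d le_rfl (by rw [← hA]; omega)
  have sB := g'.one_side (d - 1) (by omega) (by rw [← hB]; omega)
  rw [← hA] at sA
  rw [← hB] at sB
  have hDB : ∑ x ∈ B, g'.D x = ∑ x ∈ B, g.D x := sum_congr rfl fun x _ => D_eq g g' h x
  rw [hDB] at sB
  -- the middle
  have hmE : ∀ x ∉ g.P, g.m x ≤ e := by
    intro x hx
    have h1 : x ∈ g.L (2 * d) := g.mem_L.2 ⟨hx, by have := g.p_le x; omega⟩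
    refine (g.m_le_card h1).trans ?_
    rw [← hXcard]
    apply card_le_card
    intro y hy
    rw [hmX]; exact (g.mem_L.1 hy).1
  have hmE' : ∀ x ∉ g.P, g'.m x ≤ e := by
    intro x hx
    have h1 : x ∈ g'.L (2 * d) := g'.mem_L.2 ⟨by rw [hPP]; exact hx, by have := g'.p_le x; omega⟩
    refine (g'.m_le_card h1).trans ?_
    rw [← hXcard]
    apply card_le_card
    intro y hy
    rw [hmX]; rw [← hPP]; exact (g'.mem_L.1 hy).1
  have sM : ∀ x ∈ M, 2 * g.D x + 2 * (e * d) ≤ d * (d + 1) := by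
    intro x hx
    rw [hM, mem_sdiff, hmX, mem_union, hmA, hmB] at hx
    obtain ⟨hx1, hx2⟩ := hx
    have hp : d < 2 * g.p x := by
      by_contra hcon
      exact hx2 (Or.inl ⟨hx1, by omega⟩)
    have hp' : d ≤ 2 * g'.p x := by
      by_contra hcon
      exact hx2 (Or.inr ⟨hx1, by omega⟩)
    have h1 := (dist_v0 g g' h x).2
    have h2 := hmE x hx1
    have h3 := hmE' x hx1
    have h4 := g.D_le x
    have h5 : g.p x = g.δ x + g.m x := rfl
    have := mid e d (g.m x) (g'.m x) (g.p x) (g'.p x) (g.δ x) (by exact_mod_cast he0)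
      (by exact_mod_cast hde) (by positivity) (by exact_mod_cast h2) (by exact_mod_cast h3)
      (by exact_mod_cast hp) (by exact_mod_cast hp')
      (by have : ((g.p x + g'.p x : ℕ) : ℤ) ≤ ((d + g.m x + g'.m x : ℕ) : ℤ) := by
            exact_mod_cast h1
          push_cast at this; linarith)
      (by exact_mod_cast h5)
    linarith
  -- splitting the sum
  have hf0 : ∀ x y, (0 : ℤ) ≤ G.dist x y := fun x y => by positivity
  have hfd : ∀ x y, (G.dist x y : ℤ) ≤ d := fun x y => by exact_mod_cast g.hd x y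
  have split1 : ∀ f : V → ℤ, ∑ x, f x = ∑ x ∈ g.P, f x + ∑ x ∈ X, f x := fun f =>
    (sum_add_sum_compl g.P f).symm
  have split2 : ∀ f : V → ℤ, ∑ x ∈ X, f x = ∑ x ∈ M, f x + (∑ x ∈ A, f x + ∑ x ∈ B, f x) := by
    intro f
    rw [← sum_union hAB, hM, sum_sdiff hABX]
  have hD : ∀ x, ∑ y ∈ g.P, (G.dist x y : ℤ) = g.D x := fun x => g.sum_P _
  have hT : ∑ x, ∑ y, (G.dist x y : ℤ) = ∑ x ∈ g.P, ∑ y ∈ g.P, (G.dist x y : ℤ)
      + 2 * ∑ x ∈ X, g.D x + ∑ x ∈ X, ∑ y ∈ X, (G.dist x y : ℤ) := by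
    rw [split1]
    simp_rw [split1 (fun y => (G.dist _ y : ℤ)), sum_add_distrib]
    have hc : ∑ x ∈ g.P, ∑ y ∈ X, (G.dist x y : ℤ) = ∑ x ∈ X, g.D x := by
      rw [sum_comm]
      apply sum_congr rfl
      intro x _
      rw [← hD]
      apply sum_congr rfl
      intro y _
      rw [SimpleGraph.dist_comm]
    rw [hc]
    simp_rw [hD]
    ring
  have hXX : ∑ x ∈ X, ∑ y ∈ X, (G.dist x y : ℤ) ≤ #M * (2 * (e * d))
      + ∑ q ∈ A.offDiag, (G.dist q.1 q.2 : ℤ) + ∑ q ∈ B.offDiag, (G.dist q.1 q.2 : ℤ)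
      + 2 * #A * #B * d := by
    have hoff : ∀ S : Finset V, ∑ x ∈ S, ∑ y ∈ S, (G.dist x y : ℤ)
        = ∑ q ∈ S.offDiag, (G.dist q.1 q.2 : ℤ) := by
      intro S
      have h1 := sum_product S S (fun q => (G.dist q.1 q.2 : ℤ))
      simp only at h1
      rw [← h1, ← diag_union_offDiag S, sum_union (disjoint_diag_offDiag S), sum_diag]
      simp
    have hcross : ∀ S T : Finset V, ∑ x ∈ S, ∑ y ∈ T, (G.dist x y : ℤ) ≤ #S * #T * d := by
      intro S T
      calc _ ≤ ∑ x ∈ S, ∑ y ∈ T, (d : ℤ) := sum_le_sum fun x _ => sum_le_sum fun y _ => hfd x y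
        _ = _ := by simp only [sum_const, nsmul_eq_mul]; ring
    rw [split2]
    simp_rw [split2 (fun y => (G.dist _ y : ℤ)), sum_add_distrib]
    rw [hoff A, hoff B]
    have c1 := hcross M M
    have c2 := hcross M A
    have c3 := hcross M B
    have c4 := hcross A M
    have c5 := hcross B M
    have c6 := hcross A B
    have c7 := hcross B A
    have e1 : (e : ℤ) = #M + #A + #B := by
      rw [hcAB] at hcM
      have : e = #M + #A + #B := by omega
      exact_mod_cast this
    rw [e1]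
    have e2 : (0 : ℤ) ≤ #M * #M * d := by positivity
    linarith
  have hMs : 2 * ∑ x ∈ M, g.D x + #M * (2 * (e * d)) ≤ #M * (d * (d + 1)) := by
    have := sum_le_sum sM
    simp only [sum_add_distrib, sum_const, nsmul_eq_mul, ← mul_sum] at this
    linarith
  have hXD : ∑ x ∈ X, g.D x = ∑ x ∈ M, g.D x + (∑ x ∈ A, g.D x + ∑ x ∈ B, g.D x) := split2 _
  have hka : #(A.filter fun x => 1 ≤ g.δ x) ≤ #A := card_filter_le _ _
  have hlb : #(B.filter fun x => 1 ≤ g'.δ x) ≤ #B := card_filter_le _ _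
  have hF1 : 4 * (e ^ 2 / 4) ≤ e ^ 2 := Nat.mul_div_le _ _
  have hF2 : e ^ 2 ≤ 4 * (e ^ 2 / 4) + 1 := by
    have h1 : e ^ 2 % 4 ≤ 1 := by
      rcases Nat.even_or_odd' e with ⟨k, hk | hk⟩
      · rw [hk]; ring_nf; omega
      · rw [hk]; ring_nf; omega
    omega
  have key := arith #A #B #(A.filter fun x => 1 ≤ g.δ x) #(B.filter fun x => 1 ≤ g'.δ x) d e
    (e ^ 2 / 4 : ℕ) (by positivity) (by positivity)
    (by rw [hcAB] at hcM; have : #A + #B ≤ e := by omega
        exact_mod_cast this)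
    (by positivity) (by exact_mod_cast hka) (by positivity) (by exact_mod_cast hlb)
    (by exact_mod_cast he) (by exact_mod_cast hF1) (by exact_mod_cast hF2)
  have hPs := g.sum_PP
  have e1 : (e : ℤ) = #M + #A + #B := by
    rw [hcAB] at hcM
    have : e = #M + #A + #B := by omega
    exact_mod_cast this
  have e2 : (e : ℤ) * (d * (d + 1)) = #M * (d * (d + 1)) + #A * (d * (d + 1))
      + #B * (d * (d + 1)) := by rw [e1]; ring
  rw [hT, hXD]
  linarith

end Geo

end Pool.Agent.Lib.MP_b0a977_co
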